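import Mathlib
import Pool.Agent.H576.RD.Stm

/-!
# The octahedral case (cubic moment identity over the 24 rotations)
-/

set_option autoImplicit false

namespace Pool.Agent.H670

open Pool.Agent.H576.RD

lemma co_term {a t : ℝ} (h : t < a) : (t - a) * (t + a) ^ 2 ≤ 0 :=
  mul_nonpos_of_nonpos_of_nonneg (by linarith) (sq_nonneg _)

lemma co_zero {a t : ℝ} (h : t < a) (h0 : 0 ≤ (t - a) * (t + a) ^ 2) : t = -a := by
  have h1 : (t - a) * (t + a) ^ 2 = 0 := le_antisymm (co_term h) h0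
  rcases mul_eq_zero.mp h1 with h2 | h2
  · linarith
  · have := pow_eq_zero_iff (two_ne_zero) |>.mp h2
    linarith

/-- the partial sum over the four even sign changes is negative -/
lemma co_four {A B C a : ℝ} (ha : 0 < a) (h1 : A + B + C < a) (h2 : A - B - C < a)
    (h3 : -A + B - C < a) (h4 : -A - B + C < a) :
    24 * (A * B * C) + 4 * a * (A ^ 2 + B ^ 2 + C ^ 2) - 4 * a ^ 3 < 0 := by
  have e : (A + B + C - a) * (A + B + C + a) ^ 2 + (A - B - C - a) * (A - B - C + a) ^ 2 +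
      (-A + B - C - a) * (-A + B - C + a) ^ 2 + (-A - B + C - a) * (-A - B + C + a) ^ 2 =
      24 * (A * B * C) + 4 * a * (A ^ 2 + B ^ 2 + C ^ 2) - 4 * a ^ 3 := by ring
  have t1 := co_term h1
  have t2 := co_term h2
  have t3 := co_term h3
  have t4 := co_term h4
  by_contra hc
  have hc' := not_lt.mp hc
  have z1 := co_zero h1 (by linarith)
  have z2 := co_zero h2 (by linarith)
  have z3 := co_zero h3 (by linarith)
  have z4 := co_zero h4 (by linarith)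
  linarith

lemma norm_sq_three (v : E) : ‖v‖ ^ 2 = v 0 ^ 2 + v 1 ^ 2 + v 2 ^ 2 := by
  rw [EuclideanSpace.norm_sq_eq, Fin.sum_univ_three]
  simp

theorem rd_co : S_CO := by
  intro X s L h0 hcyc hd hq hM hL hL2 hsL
  obtain ⟨v, hvX, hv⟩ := hM.att 0 h0
  obtain ⟨b, hbX, hb, hlens⟩ := hL 0 h0
  rw [sub_zero] at hv hb
  have hs0 : 0 < s := hM.pos
  have hL0 : 0 < L := hs0.trans hsL
  have hb2 : b 0 ^ 2 + b 1 ^ 2 + b 2 ^ 2 = L ^ 2 := by rw [← norm_sq_three, hb]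
  -- the orbit
  let Q : ℝ → ℝ → ℝ → Prop := fun x y z => (!₂[x, y, z] : E) ∈ X ∧ x ^ 2 + y ^ 2 + z ^ 2 = s ^ 2
  have hnorm : ∀ x y z : ℝ, Q x y z → ‖(!₂[x, y, z] : E)‖ = s := by
    intro x y z h
    have h1 : ‖(!₂[x, y, z] : E)‖ ^ 2 = s ^ 2 := by
      rw [norm_sq_three]
      simpa using h.2
    exact (pow_left_inj₀ (norm_nonneg _) hs0.le two_ne_zero).mp h1
  have hle2 : ∀ x y z : ℝ, Q x y z → ‖(!₂[x, y, z] : E)‖ ≤ 2 := by
    intro x y z h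
    rw [hnorm x y z h]
    linarith
  have c1 : ∀ x y z : ℝ, Q x y z → Q y z x := by
    intro x y z h
    refine ⟨?_, by linarith [h.2]⟩
    have h1 := (hcyc _ (hle2 x y z h)).mp h.1
    have e1 : cycE (!₂[x, y, z] : E) = !₂[y, z, x] := by
      unfold cycE
      simp
    rwa [e1] at h1
  have d1 : ∀ x y z : ℝ, Q x y z → Q x (-y) (-z) := by
    intro x y z h
    refine ⟨?_, by linarith [h.2, neg_sq y, neg_sq z]⟩
    have h1 := (hd _ (hle2 x y z h)).mp h.1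
    have e1 : dE (!₂[x, y, z] : E) = !₂[x, -y, -z] := by
      unfold dE
      simp
    rwa [e1] at h1
  have q1 : ∀ x y z : ℝ, Q x y z → Q (-y) x z := by
    intro x y z h
    refine ⟨?_, by linarith [h.2, neg_sq y]⟩
    have h1 := (hq _ (hle2 x y z h)).mp h.1
    have e1 : qE (!₂[x, y, z] : E) = !₂[-y, x, z] := by
      unfold qE
      simp
    rwa [e1] at h1
  have d2 : ∀ x y z : ℝ, Q x y z → Q (-x) y (-z) := fun x y z h =>
    c1 _ _ _ (c1 _ _ _ (d1 _ _ _ (c1 _ _ _ h)))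
  have d3 : ∀ x y z : ℝ, Q x y z → Q (-x) (-y) z := by
    intro x y z h
    have h1 := d1 _ _ _ (d2 _ _ _ h)
    rwa [neg_neg] at h1
  -- the constant
  set a : ℝ := s * L / Real.sqrt 3 with ha
  have h3 : 0 < Real.sqrt 3 := Real.sqrt_pos.mpr (by norm_num)
  have h3' : Real.sqrt 3 ^ 2 = 3 := Real.sq_sqrt (by norm_num)
  have ha0 : 0 < a := by positivity
  have ha2 : 3 * a ^ 2 = s ^ 2 * L ^ 2 := by
    rw [ha, div_pow, mul_pow, h3']
    ring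
  have hsa : s ^ 2 / 2 < a := by
    rw [ha, lt_div_iff₀ h3]
    have h4 : Real.sqrt 3 < 2 := by
      rw [Real.sqrt_lt' (by norm_num)]
      norm_num
    nlinarith [mul_pos hs0 hs0, mul_pos hs0 (sub_pos.mpr hsL)]
  have hT : ∀ x y z : ℝ, Q x y z → x * b 0 + y * b 1 + z * b 2 < a := by
    intro x y z h
    refine lt_of_le_of_lt ?_ hsa
    have h1 : ‖(!₂[x, y, z] : E) - 0‖ < L := by
      rw [sub_zero, hnorm x y z h]
      exact hsL
    have h2 := hlens _ h.1 h1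
    have h5 : L ^ 2 ≤ ‖(!₂[x, y, z] : E) - b‖ ^ 2 := pow_le_pow_left₀ hL0.le h2 2
    rw [norm_sq_three] at h5
    have e0 : ((!₂[x, y, z] : E) - b) 0 = x - b 0 := by simp
    have e1 : ((!₂[x, y, z] : E) - b) 1 = y - b 1 := by simp
    have e2 : ((!₂[x, y, z] : E) - b) 2 = z - b 2 := by simp
    rw [e0, e1, e2] at h5
    have h6 := h.2
    nlinarith
  have hF : ∀ x y z : ℝ, Q x y z →
      24 * ((x * b 0) * (y * b 1) * (z * b 2)) +
        4 * a * ((x * b 0) ^ 2 + (y * b 1) ^ 2 + (z * b 2) ^ 2) - 4 * a ^ 3 < 0 := by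
    intro x y z h
    refine co_four ha0 (hT _ _ _ h) ?_ ?_ ?_
    · have := hT _ _ _ (d1 _ _ _ h)
      linarith
    · have := hT _ _ _ (d2 _ _ _ h)
      linarith
    · have := hT _ _ _ (d3 _ _ _ h)
      linarith
  have hv2 : v 0 ^ 2 + v 1 ^ 2 + v 2 ^ 2 = s ^ 2 := by rw [← norm_sq_three, hv]
  have hQ : Q (v 0) (v 1) (v 2) := by
    refine ⟨?_, hv2⟩
    have e1 : (!₂[v 0, v 1, v 2] : E) = v := by
      ext i
      fin_cases i <;> simp
    rw [e1]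
    exact hvX
  have f1 := hF _ _ _ hQ
  have f2 := hF _ _ _ (c1 _ _ _ hQ)
  have f3 := hF _ _ _ (c1 _ _ _ (c1 _ _ _ hQ))
  have f4 := hF _ _ _ (q1 _ _ _ hQ)
  have f5 := hF _ _ _ (c1 _ _ _ (q1 _ _ _ hQ))
  have f6 := hF _ _ _ (c1 _ _ _ (c1 _ _ _ (q1 _ _ _ hQ)))
  have e : (24 * ((v 0 * b 0) * (v 1 * b 1) * (v 2 * b 2)) +
        4 * a * ((v 0 * b 0) ^ 2 + (v 1 * b 1) ^ 2 + (v 2 * b 2) ^ 2) - 4 * a ^ 3) +
      (24 * ((v 1 * b 0) * (v 2 * b 1) * (v 0 * b 2)) +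
        4 * a * ((v 1 * b 0) ^ 2 + (v 2 * b 1) ^ 2 + (v 0 * b 2) ^ 2) - 4 * a ^ 3) +
      (24 * ((v 2 * b 0) * (v 0 * b 1) * (v 1 * b 2)) +
        4 * a * ((v 2 * b 0) ^ 2 + (v 0 * b 1) ^ 2 + (v 1 * b 2) ^ 2) - 4 * a ^ 3) +
      (24 * ((-(v 1) * b 0) * (v 0 * b 1) * (v 2 * b 2)) +
        4 * a * ((-(v 1) * b 0) ^ 2 + (v 0 * b 1) ^ 2 + (v 2 * b 2) ^ 2) - 4 * a ^ 3) +
      (24 * ((v 0 * b 0) * (v 2 * b 1) * (-(v 1) * b 2)) +
        4 * a * ((v 0 * b 0) ^ 2 + (v 2 * b 1) ^ 2 + (-(v 1) * b 2) ^ 2) - 4 * a ^ 3) +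
      (24 * ((v 2 * b 0) * (-(v 1) * b 1) * (v 0 * b 2)) +
        4 * a * ((v 2 * b 0) ^ 2 + (-(v 1) * b 1) ^ 2 + (v 0 * b 2) ^ 2) - 4 * a ^ 3) = 0 := by
    have e1 : (v 0 ^ 2 + v 1 ^ 2 + v 2 ^ 2) * (b 0 ^ 2 + b 1 ^ 2 + b 2 ^ 2) = 3 * a ^ 2 := by
      rw [hv2, hb2, ha2]
    linear_combination 8 * a * e1
  linarith

end Pool.Agent.H670
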