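import Pool.Agent.H683.BW.Stm

/-!
# BW S_EQ2: from an accepted word to an ordering (helper670)
-/

set_option autoImplicit false

namespace Pool.Agent.H670.BW

open Pool.Agent.H683.BW

/-! ### Runs -/

theorem run_append {Q α : Type} (step : Q → α → Option Q) (u v : List α) (q : Q) :
    run step q (u ++ v) = (run step q u).bind fun q' => run step q' v := by
  induction u generalizing q with
  | nil => rfl
  | cons a u ih =>
    simp only [List.cons_append, run]
    cases step q a with
    | none => rfl
    | some q' => exact ih q'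

/-- the meaning of the state of the monitor after the word `w` -/
def Inv (k B : ℕ) (w σ : List ℕ) : Prop := ∀ d < k, (d ∉ w → σ.getD d 0 = 0) ∧
  ∀ u v, w = u ++ d :: v → d ∉ v → σ.getD d 0 = min (v.length + 1) (B + 1)

/-- the condition for the letter `c` -/
def Cond (k B : ℕ) (E : ℕ → ℕ → Bool) (σ : List ℕ) (c : ℕ) : Prop :=
  c < k ∧ ((σ.getD c 0 = 0 ∧ ∀ d < k, E d c = true → 1 ≤ σ.getD d 0 ∧ σ.getD d 0 ≤ B) ∨
      (1 ≤ σ.getD c 0 ∧ σ.getD c 0 ≤ B ∧ ∀ d < k, E c d = true → σ.getD d 0 = 0))

theorem mstep_some {k B : ℕ} {E : ℕ → ℕ → Bool} {σ σ' : List ℕ} {c : ℕ}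
    (h : mstep k B E σ c = some σ') : Cond k B E σ c ∧
      σ' = (List.range k).map fun d =>
        if d = c then 1 else if σ.getD d 0 = 0 then 0 else min (σ.getD d 0 + 1) (B + 1) := by
  unfold mstep at h
  split_ifs at h with hc
  exact ⟨hc, (Option.some.inj h).symm⟩

theorem inv_nil (k B : ℕ) : Inv k B [] (List.replicate k 0) := by
  intro d hd
  refine ⟨fun _ => ?_, fun u v h => ?_⟩
  · rw [List.getD_eq_getElem _ _ (by simpa using hd)]
    simp
  · exact absurd h (by simp)

theorem inv_step {k B : ℕ} {E : ℕ → ℕ → Bool} {w σ σ' : List ℕ} {a : ℕ} (h : Inv k B w σ)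
    (hs : mstep k B E σ a = some σ') : Inv k B (w ++ [a]) σ' := by
  obtain ⟨-, rfl⟩ := mstep_some hs
  intro d hd
  obtain ⟨h1, h2⟩ := h d hd
  have hval : ((List.range k).map fun d =>
      if d = a then 1 else if σ.getD d 0 = 0 then 0 else min (σ.getD d 0 + 1) (B + 1)).getD d 0 =
      if d = a then 1 else if σ.getD d 0 = 0 then 0 else min (σ.getD d 0 + 1) (B + 1) := by
    rw [List.getD_eq_getElem _ _ (by simpa using hd)]
    simp
  rw [hval]
  refine ⟨fun hn => ?_, fun u v huv hv => ?_⟩
  · rw [List.mem_append, List.mem_singleton, not_or] at hn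
    rw [if_neg hn.2, if_pos (h1 hn.1)]
  · rcases List.eq_nil_or_concat v with rfl | ⟨v', a', rfl⟩
    · have h3 := List.append_inj' huv rfl
      have h4 : a = d := by simpa using h3.2
      rw [if_pos h4.symm]
      simp
    · rw [List.concat_eq_append] at huv hv
      have h3 : w ++ [a] = (u ++ d :: v') ++ [a'] := by simpa using huv
      have h4 := List.append_inj' h3 rfl
      have h5 : a = a' := by simpa using h4.2
      rw [List.mem_append, List.mem_singleton, not_or] at hv
      have h6 := h2 u v' h4.1 hv.1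
      rw [if_neg (h5 ▸ hv.2), h6, if_neg (by omega)]
      rw [List.concat_eq_append, List.length_append, List.length_singleton]
      omega

theorem inv_run {k B : ℕ} {E : ℕ → ℕ → Bool} (w : List ℕ) :
    ∀ σ, run (mstep k B E) (List.replicate k 0) w = some σ → Inv k B w σ := by
  induction w using List.reverseRecOn with
  | nil =>
    intro σ h
    have h1 : List.replicate k 0 = σ := Option.some.inj h
    rw [← h1]
    exact inv_nil k B
  | append_singleton w a ih =>
    intro σ h
    rw [run_append] at h
    cases hq : run (mstep k B E) (List.replicate k 0) w with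
    | none => rw [hq] at h; exact absurd h (by simp)
    | some q' =>
      rw [hq] at h
      have h1 : ((mstep k B E q' a).bind fun q'' => some q'') = some σ := h
      cases hq2 : mstep k B E q' a with
      | none => rw [hq2] at h1; exact absurd h1 (by simp)
      | some q2 =>
        rw [hq2] at h1
        have h2 : q2 = σ := Option.some.inj h1
        rw [← h2]
        exact inv_step (ih q' hq) hq2

theorem at_pos {k B : ℕ} {E : ℕ → ℕ → Bool} {z : List ℕ}
    (h : (run (mstep k B E) (List.replicate k 0) z).isSome = true) {a b : List ℕ} {c : ℕ}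
    (hz : z = a ++ c :: b) : ∃ σ, Inv k B a σ ∧ Cond k B E σ c := by
  rw [hz, run_append] at h
  cases hq : run (mstep k B E) (List.replicate k 0) a with
  | none => rw [hq] at h; exact absurd h (by simp)
  | some σ =>
    rw [hq] at h
    have h1 : (((mstep k B E σ c).bind fun q'' => run (mstep k B E) q'' b)).isSome = true := h
    cases hq2 : mstep k B E σ c with
    | none => rw [hq2] at h1; exact absurd h1 (by simp)
    | some q2 => exact ⟨σ, inv_run a σ hq, (mstep_some hq2).1⟩

/-! ### Words -/

theorem last_occ {d : ℕ} (w : List ℕ) (h : d ∈ w) : ∃ u v, w = u ++ d :: v ∧ d ∉ v := by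
  induction w with
  | nil => exact absurd h (by simp)
  | cons x w ih =>
    by_cases hw : d ∈ w
    · obtain ⟨u, v, h1, h2⟩ := ih hw
      exact ⟨x :: u, v, by rw [h1]; rfl, h2⟩
    · have hx : d = x := by
        rcases List.mem_cons.1 h with h1 | h1
        · exact h1
        · exact absurd h1 hw
      exact ⟨[], w, by rw [hx]; rfl, hw⟩

theorem inv_pos {k B : ℕ} {w σ : List ℕ} (h : Inv k B w σ) {d : ℕ} (hd : d < k) (hw : d ∈ w) :
    1 ≤ σ.getD d 0 := by
  obtain ⟨u, v, h1, h2⟩ := last_occ w hw
  rw [(h d hd).2 u v h1 h2]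
  omega

theorem exists_split (c : ℕ) (z : List ℕ) : ∀ i, i < z.count c →
    ∃ a b, z = a ++ c :: b ∧ a.count c = i := by
  induction z with
  | nil => intro i h; exact absurd h (by simp)
  | cons x z ih =>
    intro i h
    by_cases hx : x = c
    · subst hx
      rcases Nat.eq_zero_or_pos i with rfl | hi
      · exact ⟨[], z, rfl, by simp⟩
      · rw [List.count_cons_self] at h
        obtain ⟨a, b, h1, h2⟩ := ih (i - 1) (by omega)
        refine ⟨x :: a, b, by rw [h1]; rfl, ?_⟩
        rw [List.count_cons_self, h2]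
        omega
    · rw [List.count_cons_of_ne hx] at h
      obtain ⟨a, b, h1, h2⟩ := ih i h
      refine ⟨x :: a, b, by rw [h1]; rfl, ?_⟩
      rw [List.count_cons_of_ne hx, h2]

theorem cmp {z a b a' b' : List ℕ} {c c' : ℕ} (h : z = a ++ c :: b) (h' : z = a' ++ c' :: b')
    (hl : a.length < a'.length) : ∃ e, a' = a ++ c :: e ∧ b = e ++ c' :: b' := by
  rw [h] at h'
  rcases List.append_eq_append_iff.1 h' with ⟨e, h1, h2⟩ | ⟨e, h1, h2⟩
  · cases e with
    | nil => rw [h1] at hl; simp at hl
    | cons x e =>
      rw [List.cons_append, List.cons.injEq] at h2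
      exact ⟨e, by rw [h1, h2.1], h2.2⟩
  · rw [h1, List.length_append] at hl
    omega

theorem cmp_eq {z a b a' b' : List ℕ} {c c' : ℕ} (h : z = a ++ c :: b) (h' : z = a' ++ c' :: b')
    (hl : a.length = a'.length) : a = a' ∧ c = c' ∧ b = b' := by
  rw [h] at h'
  obtain ⟨h1, h2⟩ := List.append_inj h' hl
  rw [List.cons.injEq] at h2
  exact ⟨h1, h2.1, h2.2⟩

/-- two occurrences of a letter with the same number are at the same position -/
theorem split_unique {z a b a' b' : List ℕ} {c : ℕ} (h : z = a ++ c :: b)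
    (h' : z = a' ++ c :: b') (hc : a.count c = a'.count c) : a.length = a'.length := by
  rcases lt_trichotomy a.length a'.length with hl | hl | hl
  · obtain ⟨e, h1, -⟩ := cmp h h' hl
    rw [h1, List.count_append, List.count_cons_self] at hc
    omega
  · exact hl
  · obtain ⟨e, h1, -⟩ := cmp h' h hl
    rw [h1, List.count_append, List.count_cons_self] at hc
    omega

theorem split_at (z : List ℕ) (t : ℕ) (ht : t < z.length) :
    ∃ a c b, z = a ++ c :: b ∧ a.length = t := by
  refine ⟨z.take t, z[t], z.drop (t + 1), ?_, ?_⟩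
  · rw [← List.drop_eq_getElem_cons ht, List.take_append_drop]
  · rw [List.length_take]
    omega

/-! ### The ordering -/

/-- the vertex number `t` -/
def vx (ch : List (List ℕ)) (z : List ℕ) (t : ℕ) : ℕ :=
  (ch.getD (z.getD t 0) []).getD ((z.take t).count (z.getD t 0)) 0

theorem vx_split (ch : List (List ℕ)) {z a b : List ℕ} {c : ℕ} (h : z = a ++ c :: b) :
    vx ch z a.length = (ch.getD c []).getD (a.count c) 0 := by
  have h1 : z.getD a.length 0 = c := by
    rw [h, List.getD_eq_getElem _ _ (by simp)]
    simp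
  have h2 : z.take a.length = a := by
    rw [h]
    simp
  unfold vx
  rw [h1, h2]

/-- the position of a vertex determines its chain and its index -/
theorem chain_inj {ch : List (List ℕ)} (hn : ch.flatten.Nodup) {c c' i i' : ℕ}
    (hc : c < ch.length) (hc' : c' < ch.length) (hi : i < (ch.getD c []).length)
    (hi' : i' < (ch.getD c' []).length)
    (h : (ch.getD c []).getD i 0 = (ch.getD c' []).getD i' 0) : c = c' ∧ i = i' := by
  rw [List.nodup_flatten] at hn
  obtain ⟨hn1, hn2⟩ := hn
  rw [List.pairwise_iff_getElem] at hn2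
  have hgc : ch.getD c [] = ch[c] := List.getD_eq_getElem _ _ hc
  have hgc' : ch.getD c' [] = ch[c'] := List.getD_eq_getElem _ _ hc'
  have hm : (ch.getD c []).getD i 0 ∈ ch[c] := by
    rw [← hgc, List.getD_eq_getElem _ _ hi]
    exact List.getElem_mem _
  have hm' : (ch.getD c' []).getD i' 0 ∈ ch[c'] := by
    rw [← hgc', List.getD_eq_getElem _ _ hi']
    exact List.getElem_mem _
  have hcc : c = c' := by
    rcases lt_trichotomy c c' with hl | hl | hl
    · exact absurd hm' (by rw [← h]; exact (hn2 c c' hc hc' hl) hm)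
    · exact hl
    · exact absurd hm (by rw [h]; exact (hn2 c' c hc' hc hl) hm')
  subst hcc
  refine ⟨rfl, ?_⟩
  have hnd : (ch.getD c []).Nodup := by
    rw [List.getD_eq_getElem _ _ hc]
    exact hn1 _ (List.getElem_mem _)
  rw [List.getD_eq_getElem _ _ hi, List.getD_eq_getElem _ _ hi'] at h
  exact (List.Nodup.getElem_inj_iff hnd).1 h

theorem headD_eq (l : List ℕ) (h : 0 < l.length) : l[0] = l.headD 0 := by
  cases l with
  | nil => exact absurd h (by simp)
  | cons x y => rfl

/-- inner arcs of the chains -/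
theorem arc1 {k B : ℕ} {E : ℕ → ℕ → Bool} {z : List ℕ}
    (h : (run (mstep k B E) (List.replicate k 0) z).isSome = true) {a b a' b' : List ℕ} {c : ℕ}
    (hz : z = a ++ c :: b) (hz' : z = a' ++ c :: b') (hc : a'.count c = a.count c + 1) :
    a.length < a'.length ∧ a'.length ≤ a.length + B := by
  have hl : a.length < a'.length := by
    rcases lt_trichotomy a.length a'.length with hl | hl | hl
    · exact hl
    · rw [(cmp_eq hz hz' hl).1] at hc
      omega
    · obtain ⟨e, h1, -⟩ := cmp hz' hz hl
      rw [h1, List.count_append, List.count_cons_self] at hc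
      omega
  refine ⟨hl, ?_⟩
  obtain ⟨e, h1, -⟩ := cmp hz hz' hl
  have he : c ∉ e := by
    rw [h1, List.count_append, List.count_cons_self] at hc
    rw [← List.count_eq_zero]
    omega
  obtain ⟨σ, hσ, hck, hcond⟩ := at_pos h hz'
  have hage := (hσ c hck).2 a e h1 he
  rw [hage] at hcond
  have hlen : a'.length = a.length + (e.length + 1) := by
    rw [h1, List.length_append, List.length_cons]
  rcases hcond with ⟨h2, -⟩ | ⟨-, h3, -⟩
  · omega
  · omega

/-- arcs between the chains -/
theorem arc2 {k B : ℕ} {E : ℕ → ℕ → Bool} {z : List ℕ}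
    (h : (run (mstep k B E) (List.replicate k 0) z).isSome = true) {a b a' b' : List ℕ}
    {c d : ℕ} (hz : z = a ++ c :: b) (hz' : z = a' ++ d :: b') (hb : c ∉ b) (ha' : d ∉ a')
    (hE : E c d = true) : a.length < a'.length ∧ a'.length ≤ a.length + B := by
  obtain ⟨σ, hσ, hdk, hcond⟩ := at_pos h hz'
  obtain ⟨-, -, hck, -⟩ := at_pos h hz
  have hd0 := (hσ d hdk).1 ha'
  have h1 : 1 ≤ σ.getD c 0 ∧ σ.getD c 0 ≤ B := by
    rcases hcond with ⟨-, h2⟩ | ⟨h2, -⟩
    · exact h2 c hck hE
    · omega
  have hca : c ∈ a' := by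
    by_contra hcon
    have := (hσ c hck).1 hcon
    omega
  obtain ⟨u1, v1, h2, h3⟩ := last_occ a' hca
  have hage := (hσ c hck).2 u1 v1 h2 h3
  have hlen : a'.length = u1.length + (v1.length + 1) := by
    rw [h2, List.length_append, List.length_cons]
  have hz2 : z = u1 ++ c :: (v1 ++ d :: b') := by
    rw [hz', h2]
    simp
  have hau : a.length = u1.length := by
    rcases lt_trichotomy a.length u1.length with hl | hl | hl
    · obtain ⟨e, -, h4⟩ := cmp hz hz2 hl
      exact absurd (by rw [h4]; simp) hb
    · exact hl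
    · exfalso
      obtain ⟨e, h4, -⟩ := cmp hz2 hz hl
      rcases lt_trichotomy a.length a'.length with hm | hm | hm
      · obtain ⟨e2, h5, -⟩ := cmp hz hz' hm
        rw [h4, h2, List.append_assoc] at h5
        have h6 := List.append_cancel_left h5
        rw [List.cons_append, List.cons.injEq] at h6
        apply h3
        rw [h6.2]
        simp
      · obtain ⟨h5, h6, -⟩ := cmp_eq hz hz' hm
        rw [← h6] at ha'
        exact ha' hca
      · obtain ⟨e3, h5, -⟩ := cmp hz' hz hm
        obtain ⟨σ2, hσ2, -, hcond2⟩ := at_pos h hz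
        have hc1 : 1 ≤ σ2.getD c 0 := inv_pos hσ2 hck (by rw [h4]; simp)
        have hd1 : 1 ≤ σ2.getD d 0 := inv_pos hσ2 hdk (by rw [h5]; simp)
        rcases hcond2 with ⟨h6, -⟩ | ⟨-, -, h6⟩
        · omega
        · have := h6 d hdk hE
          omega
  omega

end Pool.Agent.H670.BW

namespace Pool.Agent.H670.BW

open Pool.Agent.H683.BW

/-- **S_EQ2** -/
theorem EQ2 : S_EQ2 := by
  intro n A ch B z hD hW
  obtain ⟨hcount, hrun⟩ := hW
  -- positions of the vertices
  have hpos : ∀ c i, c < ch.length → i < (ch.getD c []).length →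
      ∃ a b, z = a ++ c :: b ∧ a.count c = i ∧ vx ch z a.length = (ch.getD c []).getD i 0 := by
    intro c i hc hi
    obtain ⟨a, b, h1, h2⟩ := exists_split c z i (by rw [hcount c]; exact hi)
    exact ⟨a, b, h1, h2, by rw [vx_split ch h1, h2]⟩
  -- the vertex at a position
  have hat : ∀ t, t < z.length → ∃ a c b, z = a ++ c :: b ∧ a.length = t ∧ c < ch.length ∧
      a.count c < (ch.getD c []).length ∧ vx ch z t = (ch.getD c []).getD (a.count c) 0 := by
    intro t ht
    obtain ⟨a, c, b, h1, h2⟩ := split_at z t ht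
    obtain ⟨σ, -, hc, -⟩ := at_pos hrun h1
    refine ⟨a, c, b, h1, h2, hc, ?_, ?_⟩
    · rw [← hcount c, h1, List.count_append, List.count_cons_self]
      omega
    · rw [← h2]
      exact vx_split ch h1
  have hinj : ∀ s t, s < z.length → t < z.length → vx ch z s = vx ch z t → s = t := by
    intro s t hs ht h
    obtain ⟨a, c, b, h1, h2, h3, h4, h5⟩ := hat s hs
    obtain ⟨a', c', b', h1', h2', h3', h4', h5'⟩ := hat t ht
    rw [h5, h5'] at h
    obtain ⟨e1, e2⟩ := chain_inj hD.nodup h3 h3' h4 h4' h
    subst e1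
    rw [← h2, ← h2']
    exact split_unique h1 h1' e2
  have hl : ((List.range z.length).map (vx ch z)).Nodup := by
    rw [List.nodup_map_iff_inj_on List.nodup_range]
    intro s hs t ht h
    exact hinj s t (List.mem_range.1 hs) (List.mem_range.1 ht) h
  have hidx : ∀ t, t < z.length → ((List.range z.length).map (vx ch z)).idxOf (vx ch z t) = t := by
    intro t ht
    have h1 : t < ((List.range z.length).map (vx ch z)).length := by simpa using ht
    have h2 := List.Nodup.idxOf_getElem hl t h1
    have h3 : ((List.range z.length).map (vx ch z))[t] = vx ch z t := by simp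
    rw [h3] at h2
    exact h2
  refine ⟨(List.range z.length).map (vx ch z), hl, fun v => ?_, fun u v hu hv huv => ?_⟩
  · rw [← hD.mem v, List.mem_flatten, List.mem_map]
    constructor
    · rintro ⟨t, ht, rfl⟩
      obtain ⟨a, c, b, h1, h2, h3, h4, h5⟩ := hat t (List.mem_range.1 ht)
      refine ⟨ch.getD c [], ?_, ?_⟩
      · rw [List.getD_eq_getElem _ _ h3]
        exact List.getElem_mem _
      · rw [h5, List.getD_eq_getElem _ _ h4]
        exact List.getElem_mem _
    · rintro ⟨l, hl1, hl2⟩
      obtain ⟨c, hc, rfl⟩ := List.getElem_of_mem hl1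
      obtain ⟨i, hi, rfl⟩ := List.getElem_of_mem hl2
      have hgc : ch.getD c [] = ch[c] := List.getD_eq_getElem _ _ hc
      obtain ⟨a, b, h1, h2, h3⟩ := hpos c i hc (by rw [hgc]; exact hi)
      refine ⟨a.length, List.mem_range.2 (by rw [h1]; simp), ?_⟩
      rw [h3, hgc, List.getD_eq_getElem _ _ hi]
  · have hfin : ∀ {a b a' b' : List ℕ} {c c' : ℕ}, z = a ++ c :: b → z = a' ++ c' :: b' →
        vx ch z a.length = u → vx ch z a'.length = v →
        a.length < a'.length ∧ a'.length ≤ a.length + B →
        ((List.range z.length).map (vx ch z)).idxOf u <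
            ((List.range z.length).map (vx ch z)).idxOf v ∧
          ((List.range z.length).map (vx ch z)).idxOf v ≤
            ((List.range z.length).map (vx ch z)).idxOf u + B := by
      intro a b a' b' c c' h1 h1' h2 h2' h3
      rw [← h2, ← h2', hidx a.length (by rw [h1]; simp), hidx a'.length (by rw [h1']; simp)]
      exact h3
    rcases hD.arc u v hu hv huv with ⟨l, hl1, i, hi, h1, h2⟩ | ⟨l, hl1, l', hl1', h1, h2⟩
    · obtain ⟨c, hc, rfl⟩ := List.getElem_of_mem hl1
      have hgc : ch.getD c [] = ch[c] := List.getD_eq_getElem _ _ hc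
      obtain ⟨a, b, p1, p2, p3⟩ := hpos c i hc (by rw [hgc]; omega)
      obtain ⟨a', b', p1', p2', p3'⟩ := hpos c (i + 1) hc (by rw [hgc]; exact hi)
      apply hfin p1 p1'
      · rw [p3, hgc, List.getD_eq_getElem _ _ (by omega), h1]
      · rw [p3', hgc, List.getD_eq_getElem _ _ hi, h2]
      · exact arc1 hrun p1 p1' (by rw [p2, p2'])
    · obtain ⟨c, hc, rfl⟩ := List.getElem_of_mem hl1
      obtain ⟨d, hd, rfl⟩ := List.getElem_of_mem hl1'
      have hgc : ch.getD c [] = ch[c] := List.getD_eq_getElem _ _ hc
      have hgd : ch.getD d [] = ch[d] := List.getD_eq_getElem _ _ hd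
      have hcl : 0 < (ch[c]).length := List.length_pos_iff.2 (hD.ne _ hl1)
      have hdl : 0 < (ch[d]).length := List.length_pos_iff.2 (hD.ne _ hl1')
      obtain ⟨a, b, p1, p2, p3⟩ := hpos c ((ch[c]).length - 1) hc (by rw [hgc]; omega)
      obtain ⟨a', b', p1', p2', p3'⟩ := hpos d 0 hd (by rw [hgd]; exact hdl)
      apply hfin p1 p1'
      · rw [p3, hgc, ← h1, List.getD_eq_getElem _ _ (by omega), ← List.getLast_eq_getElem,
          List.getLastD_eq_getLast?, List.getLast?_eq_some_getLast (hD.ne _ hl1)]
        rfl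
      · rw [p3', hgd, ← h2, List.getD_eq_getElem _ _ hdl]
        exact headD_eq _ hdl
      · apply arc2 hrun p1 p1'
        · rw [← List.count_eq_zero]
          have h3 := hcount c
          rw [p1, List.count_append, List.count_cons_self, p2, hgc] at h3
          omega
        · rw [← List.count_eq_zero]
          exact p2'
        · unfold EE
          rw [hgc, hgd, h1, h2]
          exact huv

end Pool.Agent.H670.BW
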