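import Pool.Agent.H979.FC.Stm

/-!
# FC: representation of the survival probability by a product field
-/

set_option autoImplicit false

open MeasureTheory ProbabilityTheory Finset
open scoped ENNReal NNReal

namespace Pool.Agent.H670.FCREP

open Pool.Agent.H979.FR Pool.Agent.H979.FC

section Meas

variable {V : Type}

/-- reachability in `n` steps -/
def Rn (o : V) : ℕ → V → Set (V × List V → Bool)
  | 0, y => {_A | y = o}
  | n + 1, y => ⋃ x : V, ⋃ l : List V, ({A | A (x, l) = true ∧ y ∈ l} ∩ Rn o n x)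

lemma Rn_meas [Countable V] (o : V) : ∀ (n : ℕ) (y : V), MeasurableSet (Rn o n y)
  | 0, y => by
    unfold Rn
    exact MeasurableSet.const _
  | n + 1, y => by
    unfold Rn
    refine MeasurableSet.iUnion fun x => MeasurableSet.iUnion fun l =>
      MeasurableSet.inter ?_ (Rn_meas o n x)
    exact (measurableSet_eq_fun (measurable_pi_apply (x, l)) measurable_const).inter
      (MeasurableSet.const _)

lemma RF_iff (o y : V) (A : V × List V → Bool) : RF A o y ↔ ∃ n, A ∈ Rn o n y := by
  constructor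
  · intro h
    induction h with
    | refl => exact ⟨0, rfl⟩
    | tail _ h ih =>
      obtain ⟨n, hn⟩ := ih
      obtain ⟨l, h1, h2⟩ := h
      refine ⟨n + 1, ?_⟩
      simp only [Rn, Set.mem_iUnion]
      exact ⟨_, l, ⟨h1, h2⟩, hn⟩
  · rintro ⟨n, hn⟩
    induction n generalizing y with
    | zero =>
      have h0 : y = o := hn
      subst h0
      exact Relation.ReflTransGen.refl
    | succ n ih =>
      simp only [Rn, Set.mem_iUnion] at hn
      obtain ⟨x, l, ⟨h1, h2⟩, h3⟩ := hn
      exact Relation.ReflTransGen.tail (ih x h3) ⟨l, h1, h2⟩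

lemma RF_meas [Countable V] (o y : V) : MeasurableSet {A : V × List V → Bool | RF A o y} := by
  have h : {A : V × List V → Bool | RF A o y} = ⋃ n, Rn o n y := by
    ext A
    rw [Set.mem_iUnion]
    exact RF_iff o y A
  rw [h]
  exact MeasurableSet.iUnion fun n => Rn_meas o n y

lemma Surv_meas [Countable V] (o : V) : MeasurableSet (Surv o : Set (V × List V → Bool)) := by
  have h : (Surv o : Set (V × List V → Bool)) =
      ⋂ F : Finset V, ⋃ y : V, ({A | y ∉ F} ∩ {A | RF A o y}) := by
    ext A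
    simp only [Surv, Set.mem_ofPred_eq, Set.mem_iInter, Set.mem_iUnion, Set.mem_inter_iff]
    constructor
    · intro hi F
      obtain ⟨y, hy, hyF⟩ := hi.exists_notMem_finset F
      exact ⟨y, hyF, hy⟩
    · intro hA hfin
      obtain ⟨y, hyF, hy⟩ := hA hfin.toFinset
      exact hyF (hfin.mem_toFinset.2 hy)
  rw [h]
  refine MeasurableSet.iInter fun F => MeasurableSet.iUnion fun y => MeasurableSet.inter
    (MeasurableSet.const _) (RF_meas o y)

lemma run_unique {t : ℝ} {x : V} {ξ : Pool.Agent.H979.FR.Part V} {l l' : List V}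
    (h : run t x ξ l) (h' : run t x ξ l') : l = l' := by
  have hlen : l.length = l'.length := by
    apply le_antisymm
    · exact (h'.1 l.length).1 ((h.1 l.length).2 le_rfl)
    · exact (h.1 l'.length).1 ((h'.1 l'.length).2 le_rfl)
  refine List.ext_getElem hlen fun n h1 h2 => ?_
  rw [← h.2 n h1, ← h'.2 n h2]

open Classical in
lemma field_true {t : ℝ} {ω : Conf V} {p : V × List V} :
    field t ω p = true ↔ p.2 ≠ [] ∧ ∃ i < (ω p.1).1, run t p.1 ((ω p.1).2 i) p.2 := by
  unfold field
  exact decide_eq_true_iff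

end Meas

lemma q_nonneg {k : ℕ} {t : ℝ} (ht : 0 ≤ t) : 0 ≤ q k t := by
  unfold q
  positivity

section Law

variable {V : Type} [MeasurableSpace V] [DiscreteMeasurableSpace V] [Countable V]
  (G : SimpleGraph V) [G.LocallyFinite]

lemma field_meas (hRUN : S_RUNP) (d : ℕ) (hd : 0 < d) (hreg : ∀ v, G.degree v = d) (t : ℝ)
    (ht : 0 ≤ t) : Measurable (field t : Conf V → V × List V → Bool) := by
  rw [measurable_pi_iff]
  intro p
  refine measurable_to_bool ?_
  have h : (fun ω : Conf V => field t ω p) ⁻¹' {true} =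
      {_ω | p.2 ≠ []} ∩ ⋃ i : ℕ, ({ω | i < (ω p.1).1} ∩
        (fun ω : Conf V => (ω p.1).2 i) ⁻¹' {ξ | run t p.1 ξ p.2}) := by
    ext ω
    simp only [Set.mem_preimage, Set.mem_singleton_iff, Set.mem_inter_iff, Set.mem_iUnion,
      Set.mem_ofPred_eq]
    rw [field_true]
  rw [h]
  refine (MeasurableSet.const _).inter (MeasurableSet.iUnion fun i => MeasurableSet.inter ?_ ?_)
  · exact measurableSet_lt measurable_const ((measurable_fst).comp (measurable_pi_apply p.1))
  · exact ((measurable_pi_apply i).comp (measurable_snd.comp (measurable_pi_apply p.1)))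
      (hRUN V G d hd hreg t ht p.1 p.2).1

open Classical in
/-- the lists of the paths from `x` -/
noncomputable def Fx (F : Finset (V × List V)) (x : V) : Finset (List V) :=
  (F.filter (fun p => p.1 = x ∧ p.2 ≠ [])).image Prod.snd

open Classical in
omit [MeasurableSpace V] [DiscreteMeasurableSpace V] [Countable V] in
lemma mem_Fx (F : Finset (V × List V)) (x : V) (l : List V) :
    l ∈ Fx F x ↔ (x, l) ∈ F ∧ l ≠ [] := by
  unfold Fx
  rw [Finset.mem_image]
  constructor
  · rintro ⟨p, hp, rfl⟩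
    rw [Finset.mem_filter] at hp
    obtain ⟨h1, h2, h3⟩ := hp
    refine ⟨?_, h3⟩
    rw [← h2]
    exact h1
  · rintro ⟨h1, h2⟩
    exact ⟨(x, l), Finset.mem_filter.2 ⟨h1, rfl, h2⟩, rfl⟩

lemma partLaw_H (hRUN : S_RUNP) (d : ℕ) (hd : 0 < d) (hreg : ∀ v, G.degree v = d) (t : ℝ)
    (ht : 0 ≤ t) (lam : ℝ≥0) (F : Finset (V × List V)) (x : V) :
    (lam : ℝ) * (partLaw G {ξ | ∃ l ∈ Fx F x, run t x ξ l}).toReal =
      ∑ l ∈ Fx F x, (fw G d lam t (x, l) : ℝ) := by
  have h1 : {ξ : Pool.Agent.H979.FR.Part V | ∃ l ∈ Fx F x, run t x ξ l} =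
      ⋃ l ∈ Fx F x, {ξ | run t x ξ l} := by
    ext ξ
    simp only [Set.mem_ofPred_eq, Set.mem_iUnion, exists_prop]
  rw [h1, measure_biUnion_finset]
  · rw [ENNReal.toReal_sum (fun l _ => measure_ne_top _ _), Finset.mul_sum]
    refine Finset.sum_congr rfl fun l hl => ?_
    rw [(hRUN V G d hd hreg t ht x l).2]
    have hne : l ≠ [] := ((mem_Fx F x l).1 hl).2
    unfold fw
    by_cases hc : List.IsChain G.Adj (x :: l)
    · rw [if_pos hc, if_pos ⟨hne, hc⟩]
      have h2 : 0 ≤ q l.length t / (d : ℝ) ^ l.length := div_nonneg (q_nonneg ht) (by positivity)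
      have h3 : 0 ≤ (lam : ℝ) * q l.length t / (d : ℝ) ^ l.length :=
        div_nonneg (mul_nonneg lam.2 (q_nonneg ht)) (by positivity)
      rw [ENNReal.toReal_ofReal h2, Real.coe_toNNReal _ h3, mul_div_assoc]
    · rw [if_neg hc, if_neg (fun h => hc h.2)]
      simp
  · intro l hl l' hl' hll
    rw [Function.onFun, Set.disjoint_left]
    intro ξ h2 h3
    exact hll (run_unique h2 h3)
  · intro l _
    exact (hRUN V G d hd hreg t ht x l).1

open Classical in
omit [MeasurableSpace V] [DiscreteMeasurableSpace V] [Countable V] in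
lemma sum_all (g : V × List V → ℝ) (hg : ∀ x, g (x, []) = 0) (F : Finset (V × List V))
    (s : Finset V) (hs : ∀ p ∈ F, p.1 ∈ s) :
    ∑ x ∈ s, ∑ l ∈ Fx F x, g (x, l) = ∑ p ∈ F, g p := by
  rw [← Finset.sum_fiberwise_of_maps_to hs g]
  refine Finset.sum_congr rfl fun x _ => ?_
  unfold Fx
  rw [Finset.sum_image]
  · have h1 : ∀ p ∈ F.filter (fun p : V × List V => p.1 = x ∧ p.2 ≠ []), g (x, p.2) = g p := by
      intro p hp
      rw [Finset.mem_filter] at hp
      rw [← hp.2.1]
    rw [Finset.sum_congr rfl h1]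
    refine Finset.sum_subset ?_ ?_
    · intro p hp
      rw [Finset.mem_filter] at hp ⊢
      exact ⟨hp.1, hp.2.1⟩
    · intro p hp hp'
      rw [Finset.mem_filter] at hp hp'
      have h2 : p.2 = [] := by
        by_contra h
        exact hp' ⟨hp.1, hp.2, h⟩
      have h3 : p = (p.1, []) := by
        rw [← h2]
      rw [h3]
      exact hg _
  · intro p hp p' hp' h
    have h1 := (Finset.mem_filter.1 (Finset.mem_coe.1 hp)).2.1
    have h2 := (Finset.mem_filter.1 (Finset.mem_coe.1 hp')).2.1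
    exact Prod.ext (h1.trans h2.symm) h

lemma law_field (hRUN : S_RUNP) (hVOID : S_VOID) (hPFV : S_PFV)
    (hPOI : Pool.Agent.H979.FR.S_POI) (d : ℕ) (hd : 0 < d) (hreg : ∀ v, G.degree v = d)
    (lam : ℝ≥0) (t : ℝ) (ht : 0 ≤ t) :
    (law G lam).map (field t) = PF (fw G d lam t) := by
  have hm := field_meas G hRUN d hd hreg t ht
  have hp1 : IsProbabilityMeasure ((law G lam).map (field t)) :=
    Measure.isProbabilityMeasure_map hm.aemeasurable
  have hp2 : IsProbabilityMeasure (PF (fw G d lam t)) := by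
    unfold PF
    infer_instance
  refine hVOID (V × List V) _ _ fun F => ?_
  rw [hPFV]
  have hF : MeasurableSet {A : V × List V → Bool | ∀ i ∈ F, A i = false} := by
    have h : {A : V × List V → Bool | ∀ i ∈ F, A i = false} = ⋂ i ∈ F, {A | A i = false} := by
      ext A
      simp only [Set.mem_ofPred_eq, Set.mem_iInter]
    rw [h]
    exact MeasurableSet.biInter (Set.to_countable _) fun i _ =>
      measurableSet_eq_fun (measurable_pi_apply i) measurable_const
  rw [Measure.map_apply hm hF]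
  classical
  have h1 := hPOI V G lam (F.image Prod.fst) (fun x => {ξ | ∃ l ∈ Fx F x, run t x ξ l}) (by
    intro x
    have h2 : {ξ : Pool.Agent.H979.FR.Part V | ∃ l ∈ Fx F x, run t x ξ l} =
        ⋃ l ∈ Fx F x, {ξ | run t x ξ l} := by
      ext ξ
      simp only [Set.mem_ofPred_eq, Set.mem_iUnion, exists_prop]
    rw [h2]
    exact MeasurableSet.biUnion (Set.to_countable _) fun l _ =>
      (hRUN V G d hd hreg t ht x l).1)
  have h3 : (field t : Conf V → V × List V → Bool) ⁻¹' {A | ∀ i ∈ F, A i = false} =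
      {ω | ∀ x ∈ F.image Prod.fst, ∀ i < (ω x).1, (ω x).2 i ∉
        (fun x => {ξ : Pool.Agent.H979.FR.Part V | ∃ l ∈ Fx F x, run t x ξ l}) x} := by
    ext ω
    simp only [Set.mem_preimage, Set.mem_ofPred_eq]
    constructor
    · intro h x _ i hi hH
      obtain ⟨l, hl, hr⟩ := hH
      obtain ⟨hl1, hl2⟩ := (mem_Fx F x l).1 hl
      have h4 : field t ω (x, l) = true := field_true.2 ⟨hl2, i, hi, hr⟩
      rw [h (x, l) hl1] at h4
      exact Bool.false_ne_true h4
    · intro h p hp
      rw [← Bool.not_eq_true]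
      intro h4
      obtain ⟨hne, i, hi, hr⟩ := field_true.1 h4
      exact h p.1 (Finset.mem_image_of_mem _ hp) i hi
        ⟨p.2, (mem_Fx F p.1 p.2).2 ⟨hp, hne⟩, hr⟩
  rw [h3, h1]
  congr 3
  have h5 : ∀ x ∈ F.image Prod.fst, (lam : ℝ) * (partLaw G ((fun x =>
      {ξ : Pool.Agent.H979.FR.Part V | ∃ l ∈ Fx F x, run t x ξ l}) x)).toReal =
      ∑ l ∈ Fx F x, (fw G d lam t (x, l) : ℝ) := fun x _ =>
    partLaw_H G hRUN d hd hreg t ht lam F x
  rw [Finset.sum_congr rfl h5]
  refine sum_all (fun p => (fw G d lam t p : ℝ)) (fun x => ?_) F _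
    (fun p hp => Finset.mem_image_of_mem _ hp)
  unfold fw
  rw [if_neg (fun h => h.1 rfl)]
  rfl

end Law

end Pool.Agent.H670.FCREP

open Pool.Agent.H979.FR Pool.Agent.H979.FC Pool.Agent.H670.FCREP in
theorem Pool.Agent.H670.fc_rep (hRFAE : S_RFAE) (hRUN : S_RUNP) (hVOID : S_VOID) (hPFV : S_PFV)
    (hPOI : Pool.Agent.H979.FR.S_POI) : S_REP := by
  intro V _ _ _ G _ d hd hreg lam t ht o
  rw [← law_field G hRUN hVOID hPFV hPOI d hd hreg lam t ht,
    Measure.map_apply (field_meas G hRUN d hd hreg t ht) (Surv_meas o)]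
  refine measure_congr ?_
  filter_upwards [hRFAE V G lam t ht] with ω hω
  have h : {y | Visited t ω o y} = {y | RF (field t ω) o y} := by
    ext y
    exact hω o y
  show ({y | Visited t ω o y}.Infinite) = ({y | RF (field t ω) o y}.Infinite)
  rw [h]
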