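import Pool.Agent.H867.FT.Gen

/-!
# The order valuation ring of a local ring whose graded ring is a domain
-/

set_option autoImplicit false

namespace Pool.Agent.H670.FTVAL

open IsLocalRing

section

variable {P : Type} [CommRing P] [IsDomain P] [IsLocalRing P]

/-- an order function for the powers of the maximal ideal -/
structure Ord (P : Type) [CommRing P] [IsDomain P] [IsLocalRing P] where
  o : P → ℕ
  mem : ∀ g : P, g ≠ 0 → ∀ k, g ∈ maximalIdeal P ^ k ↔ k ≤ o g
  mul : ∀ a b : P, a ≠ 0 → b ≠ 0 → o (a * b) = o a + o b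

lemma exists_ord (hN : IsNoetherianRing P)
    (gr : ∀ (a b : P) (k l : ℕ), a ∉ maximalIdeal P ^ (k + 1) → b ∉ maximalIdeal P ^ (l + 1) →
      a * b ∉ maximalIdeal P ^ (k + l + 1)) : Nonempty (Ord P) := by
  classical
  have hex : ∀ g : P, g ≠ 0 → ∃ k, g ∉ maximalIdeal P ^ (k + 1) := by
    intro g hg
    by_contra hc
    push Not at hc
    apply hg
    have h1 : g ∈ ⨅ i : ℕ, maximalIdeal P ^ i := by
      rw [Ideal.mem_iInf]
      intro i
      rcases i with _ | i
      · simp
      · exact hc i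
    rw [Ideal.iInf_pow_eq_bot_of_isLocalRing _ (Ideal.IsPrime.ne_top inferInstance)] at h1
    simpa using h1
  let o : P → ℕ := fun g => if h : g ≠ 0 then Nat.find (hex g h) else 0
  have ho : ∀ g, ∀ h : g ≠ 0, o g = Nat.find (hex g h) := fun g h => dif_pos h
  have hmem : ∀ g : P, g ≠ 0 → ∀ k, g ∈ maximalIdeal P ^ k ↔ k ≤ o g := by
    intro g hg k
    rw [ho g hg]
    constructor
    · intro hk
      by_contra hlt
      exact Nat.find_spec (hex g hg) (Ideal.pow_le_pow_right (by omega) hk)
    · intro hk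
      rcases k with _ | k
      · simp
      · by_contra hk'
        have := Nat.find_min' (hex g hg) hk'
        omega
  refine ⟨⟨o, hmem, fun a b ha hb => ?_⟩⟩
  have hab : a * b ≠ 0 := mul_ne_zero ha hb
  apply le_antisymm
  · have h1 : a ∉ maximalIdeal P ^ (o a + 1) := by
      rw [hmem a ha]; omega
    have h2 : b ∉ maximalIdeal P ^ (o b + 1) := by
      rw [hmem b hb]; omega
    have h3 := gr a b _ _ h1 h2
    rw [hmem _ hab] at h3
    omega
  · rw [← hmem _ hab, pow_add]
    exact Ideal.mul_mem_mul ((hmem a ha _).mpr le_rfl) ((hmem b hb _).mpr le_rfl)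

variable {L : Type} [Field L] [Algebra P L] [IsFractionRing P L] (w : Ord P)

lemma am_ne {s : P} (hs : s ≠ 0) : algebraMap P L s ≠ 0 := fun h =>
  hs ((IsFractionRing.injective P L) (by rw [h, map_zero]))

/-- the valuation ring -/
def V (L : Type) [Field L] [Algebra P L] [IsFractionRing P L] (w : Ord P) : Subring L where
  carrier := {x | ∃ a s : P, s ≠ 0 ∧ x * algebraMap P L s = algebraMap P L a ∧
    a ∈ maximalIdeal P ^ w.o s}
  mul_mem' := by
    rintro x y ⟨a, s, hs, hx, ha⟩ ⟨b, t, ht, hy, hb⟩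
    refine ⟨a * b, s * t, mul_ne_zero hs ht, ?_, ?_⟩
    · rw [map_mul, map_mul, ← hx, ← hy]; ring
    · rw [w.mul s t hs ht, pow_add]
      exact Ideal.mul_mem_mul ha hb
  one_mem' := by
    refine ⟨1, 1, one_ne_zero, by simp, ?_⟩
    rw [w.mem 1 one_ne_zero]
  add_mem' := by
    rintro x y ⟨a, s, hs, hx, ha⟩ ⟨b, t, ht, hy, hb⟩
    refine ⟨a * t + s * b, s * t, mul_ne_zero hs ht, ?_, ?_⟩
    · rw [map_add, map_mul, map_mul, map_mul, ← hx, ← hy]; ring
    · rw [w.mul s t hs ht, pow_add]
      exact Ideal.add_mem _ (Ideal.mul_mem_mul ha ((w.mem t ht _).mpr le_rfl))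
        (Ideal.mul_mem_mul ((w.mem s hs _).mpr le_rfl) hb)
  zero_mem' := ⟨0, 1, one_ne_zero, by simp, Ideal.zero_mem _⟩
  neg_mem' := by
    rintro x ⟨a, s, hs, hx, ha⟩
    refine ⟨-a, s, hs, ?_, neg_mem ha⟩
    rw [map_neg, ← hx]; ring

lemma mem_V {x : L} : x ∈ V L w ↔ ∃ a s : P, s ≠ 0 ∧ x * algebraMap P L s = algebraMap P L a ∧
    a ∈ maximalIdeal P ^ w.o s := Iff.rfl

/-- the condition does not depend on the fraction -/
lemma mem_V_iff {x : L} {a s : P} (hs : s ≠ 0) (hx : x * algebraMap P L s = algebraMap P L a) :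
    x ∈ V L w ↔ a ∈ maximalIdeal P ^ w.o s := by
  constructor
  · rintro ⟨b, t, ht, hy, hb⟩
    rcases eq_or_ne a 0 with ha | ha
    · rw [ha]; exact Ideal.zero_mem _
    · have h1 : a * t = b * s := by
        apply IsFractionRing.injective P L
        rw [map_mul, map_mul, ← hx, ← hy]; ring
      have hb0 : b ≠ 0 := by
        rintro rfl
        rw [zero_mul] at h1
        exact mul_ne_zero ha ht h1
      have h2 := congrArg w.o h1
      rw [w.mul a t ha ht, w.mul b s hb0 hs] at h2
      rw [w.mem b hb0] at hb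
      rw [w.mem a ha]
      omega
  · intro ha
    exact ⟨a, s, hs, hx, ha⟩

lemma am_mem (g : P) : algebraMap P L g ∈ V L w := by
  rw [mem_V_iff w (one_ne_zero) (a := g) (by rw [map_one, mul_one])]
  have : w.o 1 = 0 := by
    have h := w.mul 1 1 one_ne_zero one_ne_zero
    rw [mul_one] at h
    omega
  rw [this]
  simp

/-- criterion for units -/
lemma isUnit_V {x : V L w} {a s : P} (hs : s ≠ 0) (ha : a ≠ 0)
    (hx : (x : L) * algebraMap P L s = algebraMap P L a) (h : w.o a ≤ w.o s) : IsUnit x := by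
  have hsa : algebraMap P L s ≠ 0 := am_ne hs
  have haa : algebraMap P L a ≠ 0 := am_ne ha
  have hx0 : (x : L) ≠ 0 := by
    rintro h0
    rw [h0, zero_mul] at hx
    exact haa hx.symm
  have hy : (x : L)⁻¹ ∈ V L w := by
    rw [mem_V_iff w ha (a := s)]
    · rw [w.mem s hs]; exact h
    · rw [← hx]; field_simp
  refine IsUnit.of_mul_eq_one ⟨_, hy⟩ ?_
  apply Subtype.ext
  show (x : L) * (x : L)⁻¹ = 1
  exact mul_inv_cancel₀ hx0

end

theorem val : Pool.Agent.H867.FT.S_VAL := by
  intro p d P L _ _ _ _ _ _ hR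
  obtain ⟨w⟩ := exists_ord hR.noeth hR.gr
  have hN := hR.noeth
  -- an element of order one
  obtain ⟨π, hπ1, hπ2⟩ : ∃ π ∈ maximalIdeal P, π ∉ maximalIdeal P ^ 2 := by
    by_contra hc
    push Not at hc
    apply hR.ne_bot
    have h1 : maximalIdeal P ≤ maximalIdeal P ^ 2 := hc
    have h2 : ∀ k : ℕ, maximalIdeal P ≤ maximalIdeal P ^ (k + 1) := by
      intro k
      induction k with
      | zero => rw [zero_add, pow_one]
      | succ k ih =>
        calc maximalIdeal P ≤ maximalIdeal P ^ 2 := h1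
          _ = maximalIdeal P * maximalIdeal P := pow_two _
          _ ≤ maximalIdeal P ^ (k + 1) * maximalIdeal P := Ideal.mul_mono_left ih
          _ = maximalIdeal P ^ (k + 1 + 1) := (pow_succ _ _).symm
    have h3 : maximalIdeal P ≤ ⨅ i : ℕ, maximalIdeal P ^ i := by
      refine le_iInf fun i => ?_
      rcases i with _ | i
      · simp
      · exact h2 i
    rw [Ideal.iInf_pow_eq_bot_of_isLocalRing _ (Ideal.IsPrime.ne_top inferInstance)] at h3
    exact le_bot_iff.mp h3
  have hπ0 : π ≠ 0 := by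
    rintro rfl
    exact hπ2 (Ideal.zero_mem _)
  have hoπ : w.o π = 1 := by
    have h1 : 1 ≤ w.o π := by
      rw [← w.mem π hπ0, pow_one]; exact hπ1
    have h2 : ¬ 2 ≤ w.o π := by
      rw [← w.mem π hπ0]; exact hπ2
    omega
  have ho1 : w.o 1 = 0 := by
    have h := w.mul 1 1 one_ne_zero one_ne_zero
    rw [mul_one] at h
    omega
  have hoπk : ∀ k, w.o (π ^ k) = k := by
    intro k
    induction k with
    | zero => rw [pow_zero, ho1]
    | succ k ih => rw [pow_succ, w.mul _ _ (pow_ne_zero _ hπ0) hπ0, ih, hoπ]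
  -- the algebra structure
  letI : Algebra P (V L w) := ((algebraMap P L).codRestrict (V L w) (am_mem w)).toAlgebra
  have hal : ∀ g : P, ((algebraMap P (V L w) g : V L w) : L) = algebraMap P L g := fun g => rfl
  haveI : IsScalarTower P (V L w) L := IsScalarTower.of_algebraMap_eq fun g => rfl
  -- representation of elements
  have hrep : ∀ x : V L w, x ≠ 0 → ∃ a s : P, s ≠ 0 ∧ a ≠ 0 ∧
      (x : L) * algebraMap P L s = algebraMap P L a ∧ w.o s ≤ w.o a := by
    intro x hx
    obtain ⟨a, s, hs, h1, h2⟩ := x.2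
    have hx0 : (x : L) ≠ 0 := fun h => hx (Subtype.ext h)
    have ha : a ≠ 0 := by
      rintro rfl
      rw [map_zero] at h1
      exact mul_ne_zero hx0 (am_ne hs) h1
    exact ⟨a, s, hs, ha, h1, (w.mem a ha _).mp h2⟩
  have hπV : (algebraMap P (V L w) π) ≠ 0 := fun h => am_ne (L := L) hπ0 (congrArg Subtype.val h)
  have hirr : Irreducible (algebraMap P (V L w) π) := by
    refine ⟨?_, ?_⟩
    · intro hu
      obtain ⟨u, hu⟩ := hu
      have h1 : (algebraMap P (V L w) π) * ((u⁻¹ : (V L w)ˣ) : V L w) = 1 := by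
        rw [← hu, Units.mul_inv]
      obtain ⟨a, s, hs, h2, h3⟩ := ((u⁻¹ : (V L w)ˣ) : V L w).2
      have h4 : π * a = s := by
        apply IsFractionRing.injective P L
        rw [map_mul, ← h2, ← mul_assoc]
        have h5 := congrArg Subtype.val h1
        have h6 : algebraMap P L π * (((u⁻¹ : (V L w)ˣ) : V L w) : L) = 1 := h5
        rw [h6, one_mul]
      have ha : a ≠ 0 := by
        rintro rfl
        rw [mul_zero] at h4
        exact hs h4.symm
      have h5 := congrArg w.o h4
      rw [w.mul π a hπ0 ha, hoπ] at h5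
      rw [w.mem a ha] at h3
      omega
    · intro x y hxy
      have hx0 : x ≠ 0 := by
        rintro rfl
        rw [zero_mul] at hxy
        exact hπV hxy
      have hy0 : y ≠ 0 := by
        rintro rfl
        rw [mul_zero] at hxy
        exact hπV hxy
      obtain ⟨a, s, hs, ha, h1, h2⟩ := hrep x hx0
      obtain ⟨b, t, ht, hb, h3, h4⟩ := hrep y hy0
      have h5 : algebraMap P L π = (x : L) * (y : L) := congrArg Subtype.val hxy
      have h6 : π * (s * t) = a * b := by
        apply IsFractionRing.injective P L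
        rw [map_mul, map_mul, map_mul, h5, ← h1, ← h3]; ring
      have h7 := congrArg w.o h6
      rw [w.mul π _ hπ0 (mul_ne_zero hs ht), w.mul s t hs ht, w.mul a b ha hb, hoπ] at h7
      rcases Nat.lt_or_ge (w.o s) (w.o a) with h8 | h8
      · right
        exact isUnit_V w ht hb h3 (by omega)
      · left
        exact isUnit_V w hs ha h1 h8
  have hfac : IsDiscreteValuationRing.HasUnitMulPowIrreducibleFactorization (V L w) := by
    refine ⟨algebraMap P (V L w) π, hirr, fun {x} hx => ?_⟩
    obtain ⟨a, s, hs, ha, h1, h2⟩ := hrep x hx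
    obtain ⟨n, hn⟩ := Nat.exists_eq_add_of_le h2
    refine ⟨n, ?_⟩
    have hpn : algebraMap P L π ^ n ≠ 0 := pow_ne_zero _ (am_ne hπ0)
    have hsn : s * π ^ n ≠ 0 := mul_ne_zero hs (pow_ne_zero _ hπ0)
    have hon : w.o (s * π ^ n) = w.o a := by
      rw [w.mul s _ hs (pow_ne_zero _ hπ0), hoπk, hn]
    have hz : (x : L) / algebraMap P L π ^ n * algebraMap P L (s * π ^ n) = algebraMap P L a := by
      rw [map_mul, map_pow, ← h1]; field_simp
    have hzV : (x : L) / algebraMap P L π ^ n ∈ V L w := by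
      rw [mem_V_iff w hsn hz, w.mem a ha]
      exact hon.le
    have hu : IsUnit (⟨_, hzV⟩ : V L w) := isUnit_V w hsn ha hz hon.ge
    refine ⟨hu.unit, ?_⟩
    apply Subtype.ext
    show algebraMap P L π ^ n * ((x : L) / algebraMap P L π ^ n) = x
    field_simp
  have hdvr : IsDiscreteValuationRing (V L w) :=
    IsDiscreteValuationRing.ofHasUnitMulPowIrreducibleFactorization hfac
  have hfrac : IsFractionRing (V L w) L := by
    refine IsFractionRing.of_field _ _ fun z => ?_
    obtain ⟨a, s, hs, rfl⟩ := IsFractionRing.div_surjective (A := P) z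
    exact ⟨algebraMap P (V L w) a, algebraMap P (V L w) s, rfl⟩
  refine ⟨V L w, inferInstance, inferInstance, hdvr, inferInstance, hfrac, inferInstance,
    inferInstance, π, hirr, fun g k => ?_, hπ1⟩
  constructor
  · intro hg
    have hz : algebraMap P L g / algebraMap P L π ^ k * algebraMap P L (π ^ k) =
        algebraMap P L g := by
      rw [map_pow]
      exact div_mul_cancel₀ _ (pow_ne_zero _ (am_ne hπ0))
    have hzV : algebraMap P L g / algebraMap P L π ^ k ∈ V L w := by
      rw [mem_V_iff w (pow_ne_zero _ hπ0) hz, hoπk]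
      exact hg
    refine ⟨⟨_, hzV⟩, ?_⟩
    apply Subtype.ext
    show algebraMap P L g = algebraMap P L π ^ k * (algebraMap P L g / algebraMap P L π ^ k)
    rw [mul_div_cancel₀ _ (pow_ne_zero _ (am_ne hπ0))]
  · rintro ⟨y, hy⟩
    have h1 : algebraMap P L g = algebraMap P L π ^ k * (y : L) := congrArg Subtype.val hy
    have h2 : (y : L) * algebraMap P L (π ^ k) = algebraMap P L g := by
      rw [map_pow, h1, mul_comm]
    have h3 := (mem_V_iff w (pow_ne_zero k hπ0) h2).mp y.2
    rwa [hoπk] at h3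

end Pool.Agent.H670.FTVAL
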