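import Pool.Agent.H683.SC.PStm

/-!
# SC, S_ECOUT: a polynomial time function after a computation in time `2 ^ O(E) * |a| ^ O(1)` (helper670)
-/

set_option autoImplicit false

namespace Pool.Agent.NPC.H670SC

open Turing Pool.Agent.NPC Pool.Agent.H633R2 Pool.Agent.H683.MC Pool.Agent.H683.SC

theorem ECOUT : S_ECOUT := by
  intro α β γ _ _ _ E f g hf hg
  obtain ⟨c, C, p, hc⟩ := hf
  obtain ⟨d, p', hd⟩ := hg
  have hlen : ∀ a, (bits (f a)).length ≤
      2 ^ (C * E a) * (Polynomial.X + p).eval (bits a).length := by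
    intro a
    obtain ⟨t, ht, hr⟩ := hc a
    have h0 := hr.length_le 0
    simp only [inp, Function.update_self] at h0
    simp only [Polynomial.eval_add, Polynomial.eval_X]
    have h1 : 1 ≤ 2 ^ (C * E a) := Nat.one_le_two_pow
    have h2 : (bits a).length ≤ 2 ^ (C * E a) * (bits a).length :=
      Nat.le_mul_of_pos_left _ h1
    rw [mul_add]
    omega
  obtain ⟨M, hM⟩ := toTm (Cmd.seq c d) _ (fun a => (hc a).seq (hd (f a)))
  refine ⟨M, C * (p'.natDegree + 1), p + p'.comp (Polynomial.X + p) + 1, fun a => ?_⟩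
  obtain ⟨h1⟩ := hM a
  refine ⟨outputs_conv rfl rfl ?_ h1⟩
  have e1 : 1 ≤ 2 ^ (C * E a) := Nat.one_le_two_pow
  have e2 : p'.eval (bits (f a)).length ≤ (2 ^ (C * E a)) ^ p'.natDegree *
      p'.eval ((Polynomial.X + p).eval (bits a).length) :=
    (eval_mono p' (hlen a)).trans (eval_mul_le p' e1)
  have e3 : 2 ^ (C * (p'.natDegree + 1) * E a) =
      (2 ^ (C * E a)) ^ p'.natDegree * 2 ^ (C * E a) := by
    rw [← pow_succ, ← pow_mul]
    congr 1
    ring
  rw [e3]
  simp only [Polynomial.eval_add, Polynomial.eval_comp, Polynomial.eval_one]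
  simp only [Polynomial.eval_add] at e2
  have e4 : 1 ≤ (2 ^ (C * E a)) ^ p'.natDegree := Nat.one_le_pow _ _ e1
  generalize Polynomial.eval (Polynomial.eval (bits a).length Polynomial.X +
    Polynomial.eval (bits a).length p) p' = Q at *
  generalize Polynomial.eval (bits a).length p = P at *
  generalize (2 ^ (C * E a)) ^ p'.natDegree = U at *
  generalize 2 ^ (C * E a) = V at *
  have f1 : V * P ≤ U * V * P := by
    rw [mul_assoc]
    exact Nat.le_mul_of_pos_left _ e4
  have f2 : U * Q ≤ U * V * Q := Nat.mul_le_mul_right _ (Nat.le_mul_of_pos_right _ e1)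
  have f3 : 1 ≤ U * V := Nat.one_le_iff_ne_zero.2 (by positivity)
  rw [mul_add, mul_add, mul_one]
  omega

end Pool.Agent.NPC.H670SC
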