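import Pool.Agent.H683.SC.PosStm

/-!
# SP, S_ZJ: inclusion and exclusion for joins (helper670)
-/

set_option autoImplicit false

namespace Pool.Agent.H670.SPZJ

open Pool.Agent.H683.SC

open Classical in
/-- the indicator of `Ca ⊆ A`, `Cb ⊆ B` -/
noncomputable def gi {q : ℕ} (Ca Cb : Set (Fin q)) (A B : Fin q → Prop) : ℤ :=
  if (∀ c ∈ Ca, A c) ∧ (∀ c ∈ Cb, B c) then 1 else 0

open Classical in
theorem key {q : ℕ} (Ca Cb : Set (Fin q)) (A B : Fin q → Prop) :
    (if (∀ c ∈ Ca, ∀ d ∈ Cb, c = d) ∧ (∀ c ∈ Ca, A c) ∧ (∀ c ∈ Cb, B c) then (1 : ℤ) else 0) =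
      gi Ca Cb noc B + gi Ca Cb A noc - gi Ca Cb noc noc +
        ∑ c : Fin q, if A c ∧ B c then gi Ca Cb (onc c) (onc c) - gi Ca Cb (onc c) noc -
          gi Ca Cb noc (onc c) + gi Ca Cb noc noc else 0 := by
  rcases Set.eq_empty_or_nonempty Ca with ha | ⟨x, hx⟩
  · subst ha
    have h1 : ∀ c : Fin q, (if A c ∧ B c then gi ∅ Cb (onc c) (onc c) - gi ∅ Cb (onc c) noc -
          gi ∅ Cb noc (onc c) + gi ∅ Cb noc noc else 0) = 0 := by
      intro c
      have h2 : ∀ A' B' : Fin q → Prop, gi ∅ Cb A' B' = gi ∅ Cb noc B' := by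
        intro A' B'
        unfold gi
        simp only [Set.mem_empty_iff_false, false_imp_iff, implies_true, true_and]
      rw [h2 (onc c) (onc c), h2 (onc c) noc]
      split_ifs
      · ring
      · rfl
    rw [Finset.sum_congr rfl fun c _ => h1 c, Finset.sum_const_zero]
    have h3 : gi ∅ Cb A noc = gi ∅ Cb noc noc := by
      unfold gi
      simp only [Set.mem_empty_iff_false, false_imp_iff, implies_true, true_and]
    rw [h3]
    unfold gi
    simp only [Set.mem_empty_iff_false, false_imp_iff, implies_true, true_and]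
    ring
  · rcases Set.eq_empty_or_nonempty Cb with hb | ⟨y, hy⟩
    · subst hb
      have h1 : ∀ c : Fin q, (if A c ∧ B c then gi Ca ∅ (onc c) (onc c) - gi Ca ∅ (onc c) noc -
            gi Ca ∅ noc (onc c) + gi Ca ∅ noc noc else 0) = 0 := by
        intro c
        have h2 : ∀ A' B' : Fin q → Prop, gi Ca ∅ A' B' = gi Ca ∅ A' noc := by
          intro A' B'
          unfold gi
          simp only [Set.mem_empty_iff_false, false_imp_iff, implies_true, and_true]
        rw [h2 (onc c) (onc c), h2 noc (onc c)]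
        split_ifs
        · ring
        · rfl
      rw [Finset.sum_congr rfl fun c _ => h1 c, Finset.sum_const_zero]
      have h3 : gi Ca ∅ noc B = gi Ca ∅ noc noc := by
        unfold gi
        simp only [Set.mem_empty_iff_false, false_imp_iff, implies_true, and_true]
      rw [h3]
      unfold gi
      simp only [Set.mem_empty_iff_false, false_imp_iff, implies_true, and_true, true_and]
      ring
    · have e1 : ∀ B' : Fin q → Prop, gi Ca Cb noc B' = 0 := by
        intro B'
        unfold gi
        rw [if_neg]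
        rintro ⟨h, -⟩
        exact h x hx
      have e2 : ∀ A' : Fin q → Prop, gi Ca Cb A' noc = 0 := by
        intro A'
        unfold gi
        rw [if_neg]
        rintro ⟨-, h⟩
        exact h y hy
      simp only [e1, e2, add_zero, sub_zero, zero_add]
      by_cases hex : ∀ c ∈ Ca, ∀ d ∈ Cb, c = d
      · have hxy : x = y := hex x hx y hy
        subst hxy
        have hCa : ∀ c ∈ Ca, c = x := fun c hc => hex c hc x hy
        have hCb : ∀ c ∈ Cb, c = x := fun c hc => (hex x hx c hc).symm
        rw [Finset.sum_eq_single x]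
        · have e3 : gi Ca Cb (onc x) (onc x) = 1 := by
            unfold gi
            rw [if_pos ⟨hCa, hCb⟩]
          rw [e3]
          have e4 : ((∀ c ∈ Ca, ∀ d ∈ Cb, c = d) ∧ (∀ c ∈ Ca, A c) ∧ (∀ c ∈ Cb, B c)) ↔
              (A x ∧ B x) := by
            constructor
            · rintro ⟨-, h2, h3⟩
              exact ⟨h2 x hx, h3 x hy⟩
            · rintro ⟨h2, h3⟩
              refine ⟨hex, fun c hc => ?_, fun c hc => ?_⟩
              · rw [hCa c hc]
                exact h2
              · rw [hCb c hc]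
                exact h3
          by_cases h5 : A x ∧ B x
          · rw [if_pos h5, if_pos (e4.2 h5)]
          · rw [if_neg h5, if_neg (fun h => h5 (e4.1 h))]
        · intro c _ hc
          have e3 : gi Ca Cb (onc c) (onc c) = 0 := by
            unfold gi
            rw [if_neg]
            rintro ⟨h, -⟩
            exact hc (h x hx).symm
          rw [e3]
          split_ifs <;> rfl
        · intro h
          exact absurd (Finset.mem_univ _) h
      · rw [if_neg (fun h => hex h.1)]
        symm
        apply Finset.sum_eq_zero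
        intro c _
        have e3 : gi Ca Cb (onc c) (onc c) = 0 := by
          unfold gi
          rw [if_neg]
          rintro ⟨h, h'⟩
          apply hex
          intro c' hc' d' hd'
          exact (h c' hc').trans (h' d' hd').symm
        rw [e3]
        split_ifs <;> rfl

section

variable {q : ℕ} (t : KExp) (a b : ℕ) (S : ℕ → Fin q → Prop) (X : ℤ)

/-- the colors of the vertices with label `a` -/
def Cl (f : Fin t.labs.length → Option (Fin q)) (a : ℕ) : Set (Fin q) :=
  {c | ∃ v, t.labs.get v = a ∧ f v = some c}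

/-- the conditions on `f` that do not concern the labels `a`, `b` -/
def Rst (f : Fin t.labs.length → Option (Fin q)) : Prop :=
  (∀ u v : Fin t.labs.length, t.Adj u v → cmp (f u) (f v)) ∧
    ∀ (v : Fin t.labs.length) (c : Fin q), t.labs.get v ≠ a → t.labs.get v ≠ b →
      f v = some c → S (t.labs.get v) c

open Classical in
/-- the weight of `f`, if the other conditions hold -/
noncomputable def Mf (f : Fin t.labs.length → Option (Fin q)) : ℤ :=
  if Rst t a b S f then ∏ v, (if f v = none then 1 else X) else 0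

theorem ok_up2 (hab : a ≠ b) (f : Fin t.labs.length → Option (Fin q)) (A B : Fin q → Prop) :
    ((∀ u v : Fin t.labs.length, t.Adj u v → cmp (f u) (f v)) ∧
      (∀ (v : Fin t.labs.length) (c : Fin q), f v = some c →
        up2 S a b A B (t.labs.get v) c)) ↔
      Rst t a b S f ∧ (∀ c ∈ Cl t f a, A c) ∧ (∀ c ∈ Cl t f b, B c) := by
  constructor
  · rintro ⟨h1, h2⟩
    refine ⟨⟨h1, fun v c ha hb hv => ?_⟩, ?_, ?_⟩
    · have h3 := h2 v c hv
      unfold up2 at h3
      rw [Function.update_of_ne hb, Function.update_of_ne ha] at h3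
      exact h3
    · rintro c ⟨v, hv, hc⟩
      have h3 := h2 v c hc
      unfold up2 at h3
      rw [hv, Function.update_of_ne hab, Function.update_self] at h3
      exact h3
    · rintro c ⟨v, hv, hc⟩
      have h3 := h2 v c hc
      unfold up2 at h3
      rw [hv, Function.update_self] at h3
      exact h3
  · rintro ⟨⟨h1, h2⟩, h3, h4⟩
    refine ⟨h1, fun v c hv => ?_⟩
    unfold up2
    by_cases hb : t.labs.get v = b
    · rw [hb, Function.update_self]
      exact h4 c ⟨v, hb, hv⟩
    · rw [Function.update_of_ne hb]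
      by_cases ha : t.labs.get v = a
      · rw [ha, Function.update_self]
        exact h3 c ⟨v, ha, hv⟩
      · rw [Function.update_of_ne ha]
        exact h2 v c ha hb hv

theorem Zt_up2 (hab : a ≠ b) (A B : Fin q → Prop) :
    Zt t (up2 S a b A B) X =
      ∑ f : Fin t.labs.length → Option (Fin q), Mf t a b S X f *
        gi (Cl t f a) (Cl t f b) A B := by
  classical
  unfold Zt
  refine Finset.sum_congr rfl fun f _ => ?_
  have h := ok_up2 t a b S hab f A B
  unfold Mf gi
  by_cases h1 : Rst t a b S f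
  · by_cases h2 : (∀ c ∈ Cl t f a, A c) ∧ (∀ c ∈ Cl t f b, B c)
    · rw [if_pos (h.2 ⟨h1, h2⟩), if_pos h1, if_pos h2, mul_one]
    · rw [if_neg (fun h3 => h2 (h.1 h3).2), if_neg h2, mul_zero]
  · rw [if_neg (fun h3 => h1 (h.1 h3).1), if_neg h1, zero_mul]

theorem get_iff (v : Fin t.labs.length) (a : ℕ) : t.labs[(v : ℕ)]? = some a ↔ t.labs.get v = a := by
  rw [List.getElem?_eq_getElem v.isLt, Option.some.injEq]
  rfl

theorem ok_join (f : Fin t.labs.length → Option (Fin q)) :
    ((∀ u v : Fin t.labs.length, (KExp.join a b t).Adj u v → cmp (f u) (f v)) ∧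
      (∀ (v : Fin t.labs.length) (c : Fin q), f v = some c → S (t.labs.get v) c)) ↔
      Rst t a b S f ∧ (∀ c ∈ Cl t f a, ∀ d ∈ Cl t f b, c = d) ∧ (∀ c ∈ Cl t f a, S a c) ∧
        (∀ c ∈ Cl t f b, S b c) := by
  constructor
  · rintro ⟨h1, h2⟩
    refine ⟨⟨fun u v huv => h1 u v (Or.inl huv), fun v c _ _ hv => h2 v c hv⟩, ?_, ?_, ?_⟩
    · rintro c ⟨u, hu, hc⟩ d ⟨v, hv, hd⟩
      have h3 := h1 u v (Or.inr (Or.inl ⟨(get_iff t u a).2 hu, (get_iff t v b).2 hv⟩))
      rw [hc, hd] at h3
      rcases h3 with h3 | h3 | h3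
      · exact absurd h3 (Option.some_ne_none _)
      · exact absurd h3 (Option.some_ne_none _)
      · exact Option.some.inj h3
    · rintro c ⟨v, hv, hc⟩
      have h3 := h2 v c hc
      rwa [hv] at h3
    · rintro c ⟨v, hv, hc⟩
      have h3 := h2 v c hc
      rwa [hv] at h3
  · rintro ⟨⟨h1, h2⟩, h5, h3, h4⟩
    have h6 : ∀ u v : Fin t.labs.length, t.labs.get u = a → t.labs.get v = b →
        f u = none ∨ f v = none ∨ f u = f v := by
      intro u v hu hv
      rcases hfu : f u with _ | c
      · exact Or.inl rfl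
      · rcases hfv : f v with _ | d
        · exact Or.inr (Or.inl rfl)
        · right
          right
          rw [h5 c ⟨u, hu, hfu⟩ d ⟨v, hv, hfv⟩]
    refine ⟨fun u v huv => ?_, fun v c hv => ?_⟩
    · rcases huv with h7 | ⟨h7, h8⟩ | ⟨h7, h8⟩
      · exact h1 u v h7
      · exact h6 u v ((get_iff t u a).1 h7) ((get_iff t v b).1 h8)
      · rcases h6 v u ((get_iff t v a).1 h8) ((get_iff t u b).1 h7) with h9 | h9 | h9
        · exact Or.inr (Or.inl h9)
        · exact Or.inl h9
        · exact Or.inr (Or.inr h9.symm)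
    · by_cases hb : t.labs.get v = b
      · rw [hb]
        exact h4 c ⟨v, hb, hv⟩
      · by_cases ha : t.labs.get v = a
        · rw [ha]
          exact h3 c ⟨v, ha, hv⟩
        · exact h2 v c ha hb hv

open Classical in
theorem Zt_join :
    Zt (KExp.join a b t) S X =
      ∑ f : Fin t.labs.length → Option (Fin q), Mf t a b S X f *
        (if (∀ c ∈ Cl t f a, ∀ d ∈ Cl t f b, c = d) ∧ (∀ c ∈ Cl t f a, S a c) ∧
          (∀ c ∈ Cl t f b, S b c) then (1 : ℤ) else 0) := by
  have h0 : Zt (KExp.join a b t) S X = ∑ f : Fin t.labs.length → Option (Fin q),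
      if (∀ u v : Fin t.labs.length, (KExp.join a b t).Adj u v → cmp (f u) (f v)) ∧
      (∀ (v : Fin t.labs.length) (c : Fin q), f v = some c → S (t.labs.get v) c) then
      ∏ v, (if f v = none then 1 else X) else 0 := rfl
  rw [h0]
  refine Finset.sum_congr rfl fun f _ => ?_
  have h := ok_join t a b S f
  unfold Mf
  by_cases h1 : Rst t a b S f
  · by_cases h2 : (∀ c ∈ Cl t f a, ∀ d ∈ Cl t f b, c = d) ∧ (∀ c ∈ Cl t f a, S a c) ∧
        (∀ c ∈ Cl t f b, S b c)
    · rw [if_pos (h.2 ⟨h1, h2⟩), if_pos h1, if_pos h2, mul_one]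
    · rw [if_neg (fun h3 => h2 (h.1 h3).2), if_neg h2, mul_zero]
  · rw [if_neg (fun h3 => h1 (h.1 h3).1), if_neg h1, zero_mul]

end

theorem ZJ : S_ZJ := by
  classical
  intro q a b t S X hab
  rw [Zt_join t a b S X, Zt_up2 t a b S X hab noc (S b), Zt_up2 t a b S X hab (S a) noc,
    Zt_up2 t a b S X hab noc noc]
  have h1 : (∑ c : Fin q, if S a c ∧ S b c then
      Zt t (up2 S a b (onc c) (onc c)) X - Zt t (up2 S a b (onc c) noc) X -
      Zt t (up2 S a b noc (onc c)) X + ∑ f : Fin t.labs.length → Option (Fin q),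
        Mf t a b S X f * gi (Cl t f a) (Cl t f b) noc noc else 0) =
      ∑ f : Fin t.labs.length → Option (Fin q), Mf t a b S X f *
        ∑ c : Fin q, if S a c ∧ S b c then
          gi (Cl t f a) (Cl t f b) (onc c) (onc c) - gi (Cl t f a) (Cl t f b) (onc c) noc -
          gi (Cl t f a) (Cl t f b) noc (onc c) + gi (Cl t f a) (Cl t f b) noc noc else 0 := by
    simp only [Finset.mul_sum]
    rw [Finset.sum_comm]
    refine Finset.sum_congr rfl fun c _ => ?_
    by_cases h2 : S a c ∧ S b c
    · simp only [if_pos h2]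
      rw [Zt_up2 t a b S X hab (onc c) (onc c), Zt_up2 t a b S X hab (onc c) noc,
        Zt_up2 t a b S X hab noc (onc c), ← Finset.sum_sub_distrib, ← Finset.sum_sub_distrib,
        ← Finset.sum_add_distrib]
      exact Finset.sum_congr rfl fun f _ => by ring
    · simp only [if_neg h2, mul_zero, Finset.sum_const_zero]
  rw [h1, ← Finset.sum_add_distrib, ← Finset.sum_sub_distrib, ← Finset.sum_add_distrib]
  refine Finset.sum_congr rfl fun f _ => ?_
  rw [key]
  ring

end Pool.Agent.H670.SPZJ
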