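import Pool.Agent.H770.GS.TB

/-!
# TB10 : `S_winA`, nine numeric checks
-/

set_option autoImplicit false

open MeasureTheory Set intervalIntegral Filter Topology

namespace Pool.Agent.H670.TB

open Pool.Agent.H770.GS Pool.Agent.Helper82.GC

theorem exp_lb (t : ℝ) (ht : t ≤ 16) : (1 - t / 16) ^ 16 ≤ Real.exp (-t) := by
  have h1 : 0 ≤ 1 - t / 16 := by linarith
  have h2 : 1 - t / 16 ≤ Real.exp (-(t / 16)) := by
    have := Real.add_one_le_exp (-(t / 16))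
    linarith
  calc (1 - t / 16) ^ 16 ≤ Real.exp (-(t / 16)) ^ 16 := pow_le_pow_left₀ h1 h2 16
    _ = Real.exp (-t) := by
      rw [← Real.exp_nat_mul]
      congr 1
      push_cast
      ring

theorem exp_ub (t : ℝ) (ht : 0 ≤ t) : Real.exp (-t) ≤ 1 / (1 + t / 16) ^ 16 := by
  have h1 : 0 < 1 + t / 16 := by positivity
  have h2 : 1 + t / 16 ≤ Real.exp (t / 16) := by
    have := Real.add_one_le_exp (t / 16)
    linarith
  have h3 : (1 + t / 16) ^ 16 ≤ Real.exp t := by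
    calc (1 + t / 16) ^ 16 ≤ Real.exp (t / 16) ^ 16 := pow_le_pow_left₀ h1.le h2 16
      _ = Real.exp t := by
        rw [← Real.exp_nat_mul]
        congr 1
        push_cast
        ring
  rw [Real.exp_neg, ← one_div]
  exact one_div_le_one_div_of_le (by positivity) h3

theorem core (hred : S_redjj) {r R1 R2 l : ℝ} (hr : 0 < r) (h1 : R1 ≤ r ^ 2) (h2 : r ^ 2 ≤ R2)
    (hl0 : 0 ≤ l) (hl1 : l < 1) (hR1 : 0 < R1)
    (hk : (1 / 2 - 8 * l / 15 - l ^ 2 / 6) * R2 ≤ 1)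
    (hk1 : (1 / 2 - 8 * l / 15 - l ^ 2 / 6) * R1 ≤ 16)
    (hnum : (1 - l) * (1 / 2 - (1 - 1 / (1 + (1 - l) * R1 / 16) ^ 16) * (3 + l) / 12) ≤
      (1 + l) * R1 / 8 * (1 - (1 / 2 - 8 * l / 15 - l ^ 2 / 6) * R1 / 16) ^ 16) :
    0 ≤ jj r l := by
  refine hred r l hr hl0 hl1 ?_
  obtain ⟨κ, hκ⟩ : ∃ κ, κ = 1 / 2 - 8 * l / 15 - l ^ 2 / 6 := ⟨_, rfl⟩
  obtain ⟨R, hR⟩ : ∃ R, R = r ^ 2 := ⟨_, rfl⟩
  rw [← hR] at h1 h2 ⊢
  rw [← hκ] at hk hk1 hnum ⊢
  have hR0 : 0 < R := by linarith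
  have hκR : κ * R ≤ 1 := by
    rcases le_total κ 0 with h | h
    · have := mul_nonpos_of_nonpos_of_nonneg h hR0.le
      linarith
    · exact (mul_le_mul_of_nonneg_left h2 h).trans hk
  -- the left side
  have a1 : Real.exp (-((1 - l) * R)) ≤ 1 / (1 + (1 - l) * R1 / 16) ^ 16 := by
    refine le_trans ?_ (exp_ub ((1 - l) * R1) (mul_nonneg (by linarith) hR1.le))
    apply Real.exp_le_exp.2
    have := mul_le_mul_of_nonneg_left h1 (show 0 ≤ 1 - l by linarith)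
    linarith
  have a2 : (1 - l) * (1 / 2 - (1 - Real.exp (-((1 - l) * R))) * (3 + l) / 12) ≤
      (1 - l) * (1 / 2 - (1 - 1 / (1 + (1 - l) * R1 / 16) ^ 16) * (3 + l) / 12) := by
    apply mul_le_mul_of_nonneg_left _ (by linarith)
    have := mul_le_mul_of_nonneg_right a1 (show 0 ≤ 3 + l by linarith)
    linarith
  -- the right side
  have b1 : R1 * Real.exp (-(R1 * κ)) ≤ R * Real.exp (-(R * κ)) := by
    have c1 : Real.exp (-(R * κ)) = Real.exp (-(R1 * κ)) * Real.exp (-((R - R1) * κ)) := by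
      rw [← Real.exp_add]
      congr 1
      ring
    have c2 : 1 - (R - R1) * κ ≤ Real.exp (-((R - R1) * κ)) := by
      have := Real.add_one_le_exp (-((R - R1) * κ))
      linarith
    have c3 : R1 ≤ R * (1 - (R - R1) * κ) := by
      have : 0 ≤ (R - R1) * (1 - κ * R) := mul_nonneg (by linarith) (by linarith)
      nlinarith
    have c4 : R1 ≤ R * Real.exp (-((R - R1) * κ)) :=
      c3.trans (mul_le_mul_of_nonneg_left c2 hR0.le)
    rw [c1]
    have c5 := mul_le_mul_of_nonneg_right c4 (Real.exp_pos (-(R1 * κ))).le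
    linarith
  have b2 : (1 - κ * R1 / 16) ^ 16 ≤ Real.exp (-(R1 * κ)) := by
    have := exp_lb (κ * R1) hk1
    rwa [mul_comm κ R1] at this ⊢
  have b3 : (1 + l) * R1 / 8 * (1 - κ * R1 / 16) ^ 16 ≤
      (1 + l) * R / 8 * Real.exp (-(R * κ)) := by
    have c1 : R1 * (1 - κ * R1 / 16) ^ 16 ≤ R * Real.exp (-(R * κ)) :=
      (mul_le_mul_of_nonneg_left b2 hR1.le).trans b1
    have c2 := mul_le_mul_of_nonneg_left c1 (show 0 ≤ (1 + l) / 8 by linarith)
    linarith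
  linarith

/-- **TB10** -/
theorem s_winA : S_winA := by
  intro hred r R1 R2 l hr h1 h2 hmem
  simp only [List.mem_cons, List.not_mem_nil, or_false, Prod.mk.injEq] at hmem
  rcases hmem with ⟨rfl, rfl, rfl⟩ | ⟨rfl, rfl, rfl⟩ | ⟨rfl, rfl, rfl⟩ | ⟨rfl, rfl, rfl⟩ |
    ⟨rfl, rfl, rfl⟩ | ⟨rfl, rfl, rfl⟩ | ⟨rfl, rfl, rfl⟩ | ⟨rfl, rfl, rfl⟩ | ⟨rfl, rfl, rfl⟩
  all_goals
    exact core hred hr h1 h2 (by norm_num) (by norm_num) (by norm_num) (by norm_num)
      (by norm_num) (by norm_num)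

end Pool.Agent.H670.TB
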