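import Pool.Agent.H770.GS.TB

/-!
# TH3: a zero coordinate of the direction (helper670, for helper770)
-/

set_option autoImplicit false

open MeasureTheory Set intervalIntegral Filter Topology

namespace Pool.Agent.H670.TH3

open Pool.Agent.Helper82.GC
open Pool.Agent.H770.GS

/-- The statement is `Pool.Agent.H770.GS.S_TH3`. -/
theorem th3 : ∀ (r : ℝ) (n : ℕ) (L : List ℝ), 0 < r → L.length = n →
    (L.map fun x => x ^ 2).sum = 1 →
    Asl r (vec (n + 1) (L ++ [0])) 0 = Zr r * Asl r (vec n L) 0 := by
  intro r n L hr hL hs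
  have hL' : (L ++ [0]).length = n + 1 := by
    rw [List.length_append, hL]
    rfl
  have hs' : ((L ++ [0]).map fun x => x ^ 2).sum = 1 := by
    rw [List.map_append, List.sum_append, hs]
    norm_num
  have h1 := dens_tendsto hr (vec (n + 1) (L ++ [0])) (vec_norm hL' hs')
  have h2 := dens_tendsto hr (vec n L) (vec_norm hL hs)
  rw [ofFn_vec hL'] at h1
  rw [ofFn_vec hL] at h2
  have h3 : ∀ τ, dens r (L ++ [0]) (gs τ) 0 = Zr r * dens r L (gs τ) 0 := by
    intro τ
    have h4 : (L ++ [0]).Perm (0 :: L) := List.perm_append_comm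
    rw [dens_perm (gs_cont τ) h4, dens_cons]
    exact cv_zero _ _ _
  exact tendsto_nhds_unique h1 ((h2.const_mul (Zr r)).congr fun τ => (h3 τ).symm)

end Pool.Agent.H670.TH3
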