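import Pool.Agent.H770.GS.TK

/-!
# TK4: numerical bounds for `zt`, `ch 0` and `vv` on `[1/2, 9/8]` (helper670, for helper770)
-/

set_option autoImplicit false

open MeasureTheory Set intervalIntegral Filter Topology

namespace Pool.Agent.H670.TK4

open Pool.Agent.H770.GS

/-! ### Taylor polynomials of `e^(-x)` -/

/-- the Taylor polynomials of `e^(-x)` -/
noncomputable def tp : ℕ → ℝ → ℝ
  | 0, _ => 1
  | n + 1, x => tp n x + (-x) ^ (n + 1) / ((n + 1).factorial : ℝ)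

theorem tp_zero (n : ℕ) : tp n 0 = 1 := by
  induction n with
  | zero => rfl
  | succ n ih =>
    show tp n 0 + (-0) ^ (n + 1) / ((n + 1).factorial : ℝ) = 1
    rw [ih]
    simp

theorem pow_deriv (n : ℕ) (x : ℝ) :
    HasDerivAt (fun x : ℝ => (-x) ^ (n + 1) / ((n + 1).factorial : ℝ))
      (-((-x) ^ n / (n.factorial : ℝ))) x := by
  have h1 : HasDerivAt (fun x : ℝ => (-x) ^ (n + 1)) (((n + 1 : ℕ) : ℝ) * (-x) ^ n * (-1)) x := by
    have h := (hasDerivAt_id x).neg.pow (n + 1)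
    exact h
  have h2 := h1.div_const ((n + 1).factorial : ℝ)
  refine h2.congr_deriv ?_
  have h3 : ((n + 1).factorial : ℝ) = ((n + 1 : ℕ) : ℝ) * (n.factorial : ℝ) := by
    rw [Nat.factorial_succ]
    push_cast
    ring
  have h4 : (n.factorial : ℝ) ≠ 0 := by
    exact_mod_cast Nat.factorial_ne_zero n
  have h5 : ((n + 1 : ℕ) : ℝ) ≠ 0 := by positivity
  rw [h3]
  field_simp

theorem tp_deriv (n : ℕ) (x : ℝ) : HasDerivAt (tp (n + 1)) (-(tp n x)) x := by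
  induction n with
  | zero =>
    have h := (hasDerivAt_const x (1 : ℝ)).add (pow_deriv 0 x)
    refine h.congr_deriv ?_
    show (0 : ℝ) + -((-x) ^ 0 / ((Nat.factorial 0 : ℕ) : ℝ)) = -1
    simp
  | succ n ih =>
    have h := ih.add (pow_deriv (n + 1) x)
    refine h.congr_deriv ?_
    show -(tp n x) + -((-x) ^ (n + 1) / ((n + 1).factorial : ℝ)) =
      -(tp n x + (-x) ^ (n + 1) / ((n + 1).factorial : ℝ))
    ring

/-- alternating Taylor bounds -/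
theorem tp_sign (n : ℕ) : ∀ x : ℝ, 0 ≤ x → 0 ≤ (-1) ^ n * (tp n x - Real.exp (-x)) := by
  induction n with
  | zero =>
    intro x hx
    show 0 ≤ (-1) ^ 0 * (1 - Real.exp (-x))
    have : Real.exp (-x) ≤ 1 := Real.exp_le_one_iff.2 (by linarith)
    rw [pow_zero, one_mul]
    linarith
  | succ n ih =>
    intro x hx
    have hd : ∀ y : ℝ, HasDerivAt (fun y => (-1) ^ (n + 1) * (tp (n + 1) y - Real.exp (-y)))
        ((-1) ^ n * (tp n y - Real.exp (-y))) y := by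
      intro y
      have h1 : HasDerivAt (fun y : ℝ => Real.exp (-y)) (-Real.exp (-y)) y := by
        have h := (hasDerivAt_id y).neg.exp
        refine h.congr_deriv ?_
        simp
      have h2 := ((tp_deriv n y).sub h1).const_mul ((-1 : ℝ) ^ (n + 1))
      refine h2.congr_deriv ?_
      rw [pow_succ]
      ring
    have hm : MonotoneOn (fun y => (-1) ^ (n + 1) * (tp (n + 1) y - Real.exp (-y))) (Ici (0:ℝ)) := by
      apply monotoneOn_of_deriv_nonneg (convex_Ici 0)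
      · exact fun y _ => (hd y).continuousAt.continuousWithinAt
      · exact fun y _ => (hd y).differentiableAt.differentiableWithinAt
      · intro y hy
        rw [interior_Ici] at hy
        rw [(hd y).deriv]
        exact ih y (le_of_lt hy)
    have h3 := hm (mem_Ici.2 le_rfl) (mem_Ici.2 hx) hx
    have h4 : (-1) ^ (n + 1) * (tp (n + 1) 0 - Real.exp (-0)) = (0 : ℝ) := by
      rw [tp_zero]
      simp
    have h5 : (-1) ^ (n + 1) * (tp (n + 1) 0 - Real.exp (-0)) ≤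
        (-1) ^ (n + 1) * (tp (n + 1) x - Real.exp (-x)) := h3
    rw [h4] at h5
    exact h5

theorem tp3 (x : ℝ) : tp 3 x = 1 - x + x ^ 2 / 2 - x ^ 3 / 6 := by
  simp only [tp, Nat.factorial]
  push_cast
  ring

theorem tp4 (x : ℝ) : tp 4 x = 1 - x + x ^ 2 / 2 - x ^ 3 / 6 + x ^ 4 / 24 := by
  simp only [tp, Nat.factorial]
  push_cast
  ring

theorem tp5 (x : ℝ) : tp 5 x = 1 - x + x ^ 2 / 2 - x ^ 3 / 6 + x ^ 4 / 24 - x ^ 5 / 120 := by
  simp only [tp, Nat.factorial]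
  push_cast
  ring

theorem tp6 (x : ℝ) : tp 6 x =
    1 - x + x ^ 2 / 2 - x ^ 3 / 6 + x ^ 4 / 24 - x ^ 5 / 120 + x ^ 6 / 720 := by
  simp only [tp, Nat.factorial]
  push_cast
  ring

theorem low3 {x : ℝ} (hx : 0 ≤ x) : 1 - x + x ^ 2 / 2 - x ^ 3 / 6 ≤ Real.exp (-x) := by
  have h := tp_sign 3 x hx
  rw [tp3] at h
  norm_num at h
  linarith

theorem up4 {x : ℝ} (hx : 0 ≤ x) :
    Real.exp (-x) ≤ 1 - x + x ^ 2 / 2 - x ^ 3 / 6 + x ^ 4 / 24 := by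
  have h := tp_sign 4 x hx
  rw [tp4] at h
  norm_num at h
  linarith

theorem low5 {x : ℝ} (hx : 0 ≤ x) :
    1 - x + x ^ 2 / 2 - x ^ 3 / 6 + x ^ 4 / 24 - x ^ 5 / 120 ≤ Real.exp (-x) := by
  have h := tp_sign 5 x hx
  rw [tp5] at h
  norm_num at h
  linarith

theorem up6 {x : ℝ} (hx : 0 ≤ x) :
    Real.exp (-x) ≤ 1 - x + x ^ 2 / 2 - x ^ 3 / 6 + x ^ 4 / 24 - x ^ 5 / 120 + x ^ 6 / 720 := by
  have h := tp_sign 6 x hx
  rw [tp6] at h
  norm_num at h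
  linarith

/-! ### Integrals -/

theorem int_poly (a b c d e f g h : ℝ) :
    ∫ u in (0:ℝ)..1, (a + b * u ^ 2 + c * u ^ 4 + d * u ^ 6 + e * u ^ 8 + f * u ^ 10 +
      g * u ^ 12 + h * u ^ 14) =
      a + b / 3 + c / 5 + d / 7 + e / 9 + f / 11 + g / 13 + h / 15 := by
  have hd : ∀ x : ℝ, HasDerivAt
      (fun u => a * u + b / 3 * u ^ 3 + c / 5 * u ^ 5 + d / 7 * u ^ 7 + e / 9 * u ^ 9 +
        f / 11 * u ^ 11 + g / 13 * u ^ 13 + h / 15 * u ^ 15)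
      (a + b * x ^ 2 + c * x ^ 4 + d * x ^ 6 + e * x ^ 8 + f * x ^ 10 + g * x ^ 12 + h * x ^ 14)
      x := by
    intro x
    have h1 := (hasDerivAt_id' x).const_mul a
    have h3 := (hasDerivAt_pow 3 x).const_mul (b / 3)
    have h5 := (hasDerivAt_pow 5 x).const_mul (c / 5)
    have h7 := (hasDerivAt_pow 7 x).const_mul (d / 7)
    have h9 := (hasDerivAt_pow 9 x).const_mul (e / 9)
    have h11 := (hasDerivAt_pow 11 x).const_mul (f / 11)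
    have h13 := (hasDerivAt_pow 13 x).const_mul (g / 13)
    have h15 := (hasDerivAt_pow 15 x).const_mul (h / 15)
    refine (((((((h1.add h3).add h5).add h7).add h9).add h11).add h13).add h15).congr_deriv ?_
    push_cast
    ring
  rw [intervalIntegral.integral_eq_sub_of_hasDerivAt (fun x _ => hd x)
    (Continuous.intervalIntegrable (by fun_prop) _ _)]
  ring

theorem xb {ε : ℝ} (h0 : 0 ≤ ε) (u : ℝ) : 0 ≤ ε * u ^ 2 := by positivity

theorem zt_low3 {ε : ℝ} (h0 : 0 ≤ ε) : 1 - ε / 3 + ε ^ 2 / 10 - ε ^ 3 / 42 ≤ zt ε := by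
  have h := int_poly 1 (-ε) (ε ^ 2 / 2) (-(ε ^ 3 / 6)) 0 0 0 0
  have h2 : ∫ u in (0:ℝ)..1, (1 + -ε * u ^ 2 + ε ^ 2 / 2 * u ^ 4 + -(ε ^ 3 / 6) * u ^ 6 +
      0 * u ^ 8 + 0 * u ^ 10 + 0 * u ^ 12 + 0 * u ^ 14) ≤ zt ε := by
    unfold zt
    refine intervalIntegral.integral_mono_on zero_le_one
      (Continuous.intervalIntegrable (by fun_prop) _ _)
      (Continuous.intervalIntegrable (by fun_prop) _ _) (fun u _ => ?_)
    have := low3 (xb h0 u)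
    linarith
  linarith

theorem zt_low5 {ε : ℝ} (h0 : 0 ≤ ε) :
    1 - ε / 3 + ε ^ 2 / 10 - ε ^ 3 / 42 + ε ^ 4 / 216 - ε ^ 5 / 1320 ≤ zt ε := by
  have h := int_poly 1 (-ε) (ε ^ 2 / 2) (-(ε ^ 3 / 6)) (ε ^ 4 / 24) (-(ε ^ 5 / 120)) 0 0
  have h2 : ∫ u in (0:ℝ)..1, (1 + -ε * u ^ 2 + ε ^ 2 / 2 * u ^ 4 + -(ε ^ 3 / 6) * u ^ 6 +
      ε ^ 4 / 24 * u ^ 8 + -(ε ^ 5 / 120) * u ^ 10 + 0 * u ^ 12 + 0 * u ^ 14) ≤ zt ε := by
    unfold zt
    refine intervalIntegral.integral_mono_on zero_le_one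
      (Continuous.intervalIntegrable (by fun_prop) _ _)
      (Continuous.intervalIntegrable (by fun_prop) _ _) (fun u _ => ?_)
    have := low5 (xb h0 u)
    linarith
  linarith

theorem zt_up4 {ε : ℝ} (h0 : 0 ≤ ε) :
    zt ε ≤ 1 - ε / 3 + ε ^ 2 / 10 - ε ^ 3 / 42 + ε ^ 4 / 216 := by
  have h := int_poly 1 (-ε) (ε ^ 2 / 2) (-(ε ^ 3 / 6)) (ε ^ 4 / 24) 0 0 0
  have h2 : zt ε ≤ ∫ u in (0:ℝ)..1, (1 + -ε * u ^ 2 + ε ^ 2 / 2 * u ^ 4 + -(ε ^ 3 / 6) * u ^ 6 +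
      ε ^ 4 / 24 * u ^ 8 + 0 * u ^ 10 + 0 * u ^ 12 + 0 * u ^ 14) := by
    unfold zt
    refine intervalIntegral.integral_mono_on zero_le_one
      (Continuous.intervalIntegrable (by fun_prop) _ _)
      (Continuous.intervalIntegrable (by fun_prop) _ _) (fun u _ => ?_)
    have := up4 (xb h0 u)
    linarith
  linarith

theorem ck_eq (ε : ℝ) : ck ε 0 = ∫ u in (0:ℝ)..1, u ^ 2 * Real.exp (-(ε * u ^ 2)) := by
  unfold ck
  simp

theorem ch_eq (ε : ℝ) :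
    ch ε 0 = ∫ u in (0:ℝ)..1, u ^ 2 * (1 - u ^ 2) * Real.exp (-(ε * u ^ 2)) := by
  unfold ch
  simp

theorem ck_low5 {ε : ℝ} (h0 : 0 ≤ ε) :
    1 / 3 - ε / 5 + ε ^ 2 / 14 - ε ^ 3 / 54 + ε ^ 4 / 264 - ε ^ 5 / 1560 ≤ ck ε 0 := by
  have h := int_poly 0 1 (-ε) (ε ^ 2 / 2) (-(ε ^ 3 / 6)) (ε ^ 4 / 24) (-(ε ^ 5 / 120)) 0
  have h2 : ∫ u in (0:ℝ)..1, (0 + 1 * u ^ 2 + -ε * u ^ 4 + ε ^ 2 / 2 * u ^ 6 +
      -(ε ^ 3 / 6) * u ^ 8 + ε ^ 4 / 24 * u ^ 10 + -(ε ^ 5 / 120) * u ^ 12 + 0 * u ^ 14) ≤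
      ck ε 0 := by
    rw [ck_eq]
    refine intervalIntegral.integral_mono_on zero_le_one
      (Continuous.intervalIntegrable (by fun_prop) _ _)
      (Continuous.intervalIntegrable (by fun_prop) _ _) (fun u _ => ?_)
    have h3 := low5 (xb h0 u)
    have h4 := mul_le_mul_of_nonneg_left h3 (sq_nonneg u)
    refine le_trans (le_of_eq ?_) h4
    ring
  linarith

theorem ck_up6 {ε : ℝ} (h0 : 0 ≤ ε) :
    ck ε 0 ≤ 1 / 3 - ε / 5 + ε ^ 2 / 14 - ε ^ 3 / 54 + ε ^ 4 / 264 - ε ^ 5 / 1560 +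
      ε ^ 6 / 10800 := by
  have h := int_poly 0 1 (-ε) (ε ^ 2 / 2) (-(ε ^ 3 / 6)) (ε ^ 4 / 24) (-(ε ^ 5 / 120))
    (ε ^ 6 / 720)
  have h2 : ck ε 0 ≤ ∫ u in (0:ℝ)..1, (0 + 1 * u ^ 2 + -ε * u ^ 4 + ε ^ 2 / 2 * u ^ 6 +
      -(ε ^ 3 / 6) * u ^ 8 + ε ^ 4 / 24 * u ^ 10 + -(ε ^ 5 / 120) * u ^ 12 +
      ε ^ 6 / 720 * u ^ 14) := by
    rw [ck_eq]
    refine intervalIntegral.integral_mono_on zero_le_one
      (Continuous.intervalIntegrable (by fun_prop) _ _)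
      (Continuous.intervalIntegrable (by fun_prop) _ _) (fun u _ => ?_)
    have h3 := up6 (xb h0 u)
    have h4 := mul_le_mul_of_nonneg_left h3 (sq_nonneg u)
    refine h4.trans (le_of_eq ?_)
    ring
  linarith

theorem ch_low (ε : ℝ) : 2 / 15 * Real.exp (-(3 * ε / 7)) ≤ ch ε 0 := by
  obtain ⟨E, hE⟩ : ∃ E, E = Real.exp (-(3 * ε / 7)) := ⟨_, rfl⟩
  have hE0 : 0 < E := hE ▸ Real.exp_pos _
  rw [← hE]
  have h := int_poly 0 (E * (1 + 3 * ε / 7)) (-(E * (1 + 3 * ε / 7)) - E * ε) (E * ε) 0 0 0 0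
  have h2 : ∫ u in (0:ℝ)..1, (0 + E * (1 + 3 * ε / 7) * u ^ 2 +
      (-(E * (1 + 3 * ε / 7)) - E * ε) * u ^ 4 + E * ε * u ^ 6 + 0 * u ^ 8 + 0 * u ^ 10 +
      0 * u ^ 12 + 0 * u ^ 14) ≤ ch ε 0 := by
    rw [ch_eq]
    refine intervalIntegral.integral_mono_on zero_le_one
      (Continuous.intervalIntegrable (by fun_prop) _ _)
      (Continuous.intervalIntegrable (by fun_prop) _ _) (fun u hu => ?_)
    have h3 : E * (1 - ε * (u ^ 2 - 3 / 7)) ≤ Real.exp (-(ε * u ^ 2)) := by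
      have h5 := Real.add_one_le_exp (-(ε * (u ^ 2 - 3 / 7)))
      have h6 : Real.exp (-(ε * u ^ 2)) = E * Real.exp (-(ε * (u ^ 2 - 3 / 7))) := by
        rw [hE, ← Real.exp_add]
        congr 1
        ring
      rw [h6]
      refine mul_le_mul_of_nonneg_left ?_ hE0.le
      linarith
    have h7 : 0 ≤ u ^ 2 * (1 - u ^ 2) := by
      have := hu.1
      have := hu.2
      have : u ^ 2 ≤ 1 := by nlinarith
      exact mul_nonneg (sq_nonneg u) (by linarith)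
    have h4 := mul_le_mul_of_nonneg_left h3 h7
    refine le_trans (le_of_eq ?_) h4
    ring
  linarith

/-- **TK4** -/
theorem tk4 : S_TK4 := by
  intro ε h0 h1
  have e0 : 0 ≤ ε := by linarith
  have z1 := zt_low3 e0
  have z2 := zt_up4 e0
  have z3 := zt_low5 e0
  have c1 := ck_low5 e0
  have c2 := ck_up6 e0
  have e2 : 0 ≤ ε ^ 2 := by positivity
  have e3 : 0 ≤ ε ^ 3 := by positivity
  have e4 : 0 ≤ ε ^ 4 := by positivity
  have e5 : 0 ≤ ε ^ 5 := by positivity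
  have e6 : 0 ≤ ε ^ 6 := by positivity
  have m3 : ε ^ 3 ≤ 9 / 8 * ε ^ 2 := by
    have : ε ^ 3 = ε * ε ^ 2 := by ring
    rw [this]
    exact mul_le_mul_of_nonneg_right h1 e2
  have m4 : ε ^ 4 ≤ 9 / 8 * ε ^ 3 := by
    have : ε ^ 4 = ε * ε ^ 3 := by ring
    rw [this]
    exact mul_le_mul_of_nonneg_right h1 e3
  have m5 : ε ^ 5 ≤ 9 / 8 * ε ^ 4 := by
    have : ε ^ 5 = ε * ε ^ 4 := by ring
    rw [this]
    exact mul_le_mul_of_nonneg_right h1 e4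
  have m6 : ε ^ 6 ≤ 9 / 8 * ε ^ 5 := by
    have : ε ^ 6 = ε * ε ^ 5 := by ring
    rw [this]
    exact mul_le_mul_of_nonneg_right h1 e5
  have m7 : ε ^ 7 ≤ 9 / 8 * ε ^ 6 := by
    have : ε ^ 7 = ε * ε ^ 6 := by ring
    rw [this]
    exact mul_le_mul_of_nonneg_right h1 e6
  have hz : 0 < zt ε := by
    have : ε ^ 3 / 42 ≤ ε ^ 2 / 10 := by linarith
    linarith
  refine ⟨z1, z2, ch_low ε, ?_, ?_⟩
  · unfold vv
    rw [le_div_iff₀ hz]
    have hL : 0 ≤ 1 / 3 - 4 / 45 * ε + 0.008 * ε ^ 2 := by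
      norm_num
      linarith
    have h2 := mul_le_mul_of_nonneg_left z2 hL
    refine h2.trans (le_trans ?_ c1)
    have h3 : (1 / 3 - ε / 5 + ε ^ 2 / 14 - ε ^ 3 / 54 + ε ^ 4 / 264 - ε ^ 5 / 1560) -
        (1 / 3 - 4 / 45 * ε + 0.008 * ε ^ 2) *
          (1 - ε / 3 + ε ^ 2 / 10 - ε ^ 3 / 42 + ε ^ 4 / 216) =
        11 / 23625 * ε ^ 2 + 23 / 23625 * ε ^ 3 - 5237 / 7796250 * ε ^ 4 -
          863 / 22113000 * ε ^ 5 - 1 / 27000 * ε ^ 6 := by ring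
    linarith
  · unfold vv
    rw [div_le_iff₀ hz]
    have hU : 0 ≤ 1 / 3 - 4 / 45 * ε + 0.0098 * ε ^ 2 := by
      norm_num
      linarith
    have h2 := mul_le_mul_of_nonneg_left z3 hU
    refine c2.trans (le_trans ?_ h2)
    have h3 : (1 / 3 - 4 / 45 * ε + 0.0098 * ε ^ 2) *
          (1 - ε / 3 + ε ^ 2 / 10 - ε ^ 3 / 42 + ε ^ 4 / 216 - ε ^ 5 / 1320) -
        (1 / 3 - ε / 5 + ε ^ 2 / 14 - ε ^ 3 / 54 + ε ^ 4 / 264 - ε ^ 5 / 1560 +
          ε ^ 6 / 10800) =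
        1261 / 945000 * ε ^ 2 - 1487 / 945000 * ε ^ 3 + 265613 / 311850000 * ε ^ 4 -
          89081 / 347490000 * ε ^ 5 + 239 / 11880000 * ε ^ 6 - 49 / 6600000 * ε ^ 7 := by ring
    have h4 : 0 ≤ ε ^ 4 - 14 / 5 * ε ^ 3 + 49 / 25 * ε ^ 2 := by
      have : ε ^ 4 - 14 / 5 * ε ^ 3 + 49 / 25 * ε ^ 2 = (ε * (ε - 7 / 5)) ^ 2 := by ring
      rw [this]
      positivity
    linarith

end Pool.Agent.H670.TK4
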